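import Mathlib

/-!
The tree of standard Young tableaux, transpose automorphisms and branch transpositions.

A standard Young tableau of size `n` is encoded by the list of the positions
`(row, column)` of its entries `n, n - 1, …, 1` (rows and columns are numbered from `0`).
-/

namespace Pool.Agent.Work.MP_edc67c_co

/-- `c` is an addable cell of the diagram formed by the cells of the list `l`: it is not in `l`,
and the cells immediately above and to the left of `c` (if any) are in `l`. -/
def Addable (l : List (ℕ × ℕ)) (c : ℕ × ℕ) : Prop :=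
  c ∉ l ∧ (c.1 = 0 ∨ (c.1 - 1, c.2) ∈ l) ∧ (c.2 = 0 ∨ (c.1, c.2 - 1) ∈ l)

/-- `l` lists the positions of the entries `n, n - 1, …, 1` of a standard Young tableau of
size `n = l.length`: every entry is put in an addable cell of the diagram of the smaller ones. -/
def IsTableau : List (ℕ × ℕ) → Prop
  | [] => True
  | (c :: l) => IsTableau l ∧ Addable l c

/-- The type of standard Young tableaux of all sizes. -/
def Tab : Type := {l : List (ℕ × ℕ) // IsTableau l}

/-- The tree of standard Young tableaux: `T` is joined to the tableau obtained by deleting its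
largest entry. -/
def tree : SimpleGraph Tab where
  Adj T U := (∃ c, T.1 = c :: U.1) ∨ (∃ c, U.1 = c :: T.1)
  symm := ⟨fun _ _ h => h.symm⟩
  loopless := by
    refine ⟨fun T h => ?_⟩
    rcases h with ⟨c, h⟩ | ⟨c, h⟩ <;> exact absurd (congrArg List.length h) (by simp)

/-- The shape of the tableau `l` is symmetric, i.e. equal to its conjugate. -/
def SymmShape (l : List (ℕ × ℕ)) : Prop := ∀ c : ℕ × ℕ, c ∈ l ↔ c.swap ∈ l

/-- Transpose the part of the list `u` in front of its suffix `t`. -/
def flipAbove (t u : List (ℕ × ℕ)) : List (ℕ × ℕ) :=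
  (u.take (u.length - t.length)).map Prod.swap ++ t

lemma flipAbove_append (t s : List (ℕ × ℕ)) : flipAbove t (s ++ t) = s.map Prod.swap ++ t := by
  unfold flipAbove
  congr 2
  rw [List.length_append, Nat.add_sub_cancel, List.take_left]

lemma IsTableau.suffix {s t : List (ℕ × ℕ)} (h : IsTableau (s ++ t)) : IsTableau t := by
  induction s with
  | nil => exact h
  | cons c s ih => exact ih h.1

lemma mem_map_swap (l : List (ℕ × ℕ)) (c : ℕ × ℕ) : c ∈ l.map Prod.swap ↔ c.swap ∈ l := by
  rw [List.mem_map]
  constructor
  · rintro ⟨d, hd, rfl⟩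
    simpa using hd
  · intro h
    exact ⟨c.swap, h, by simp⟩

lemma addable_flip {t s : List (ℕ × ℕ)} (hs : SymmShape t) {c : ℕ × ℕ}
    (h : Addable (s ++ t) c) : Addable (s.map Prod.swap ++ t) c.swap := by
  have key : ∀ d : ℕ × ℕ, d ∈ s.map Prod.swap ++ t ↔ d.swap ∈ s ++ t := by
    intro d
    rw [List.mem_append, List.mem_append, mem_map_swap, hs d]
  obtain ⟨h1, h2, h3⟩ := h
  refine ⟨?_, ?_, ?_⟩
  · rw [key]
    simpa using h1
  · rcases h3 with h3 | h3
    · left; simpa using h3
    · right
      rw [key]
      simpa using h3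
  · rcases h2 with h2 | h2
    · left; simpa using h2
    · right
      rw [key]
      simpa using h2

lemma isTableau_flip {t : List (ℕ × ℕ)} (hs : SymmShape t) (ht : IsTableau t) :
    ∀ s, IsTableau (s ++ t) → IsTableau (s.map Prod.swap ++ t) := by
  intro s
  induction s with
  | nil => intro _; exact ht
  | cons c s ih =>
    intro h
    exact ⟨ih h.1, addable_flip hs h.2⟩

open Classical in
/-- The map on tableaux transposing the part above `T` of the descendants of `T` satisfying
`P`, and fixing the other tableaux (as a map of lists). -/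
noncomputable def condFlip (t : List (ℕ × ℕ)) (P : List (ℕ × ℕ) → Prop) (u : List (ℕ × ℕ)) :
    List (ℕ × ℕ) :=
  if ∃ s, P s ∧ u = s ++ t then flipAbove t u else u

/-- Auxiliary construction: if `P` is a property of lists which is invariant under swapping and
such that `P (c :: s) ↔ P s` for nonempty `s`, then `condFlip` is an automorphism. -/
noncomputable def condAut (T : Tab) (hT : SymmShape T.1) (P : List (ℕ × ℕ) → Prop)
    (hP : ∀ s, P (s.map Prod.swap) ↔ P s) (hP' : ∀ c s, s ≠ [] → (P (c :: s) ↔ P s)) :
    tree ≃g tree := by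
  have hval : ∀ U : Tab, IsTableau (condFlip T.1 P U.1) := by
    intro U
    unfold condFlip
    split_ifs with h
    · obtain ⟨s, -, hs⟩ := h
      rw [hs, flipAbove_append]
      exact isTableau_flip hT T.2 s (hs ▸ U.2)
    · exact U.2
  have hinv : ∀ u, condFlip T.1 P (condFlip T.1 P u) = u := by
    intro u
    by_cases h : ∃ s, P s ∧ u = s ++ T.1
    · obtain ⟨s, hs, rfl⟩ := h
      have e1 : condFlip T.1 P (s ++ T.1) = s.map Prod.swap ++ T.1 := by
        unfold condFlip
        rw [if_pos ⟨s, hs, rfl⟩, flipAbove_append]
      rw [e1]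
      have e2 : condFlip T.1 P (s.map Prod.swap ++ T.1) =
          (s.map Prod.swap).map Prod.swap ++ T.1 := by
        unfold condFlip
        rw [if_pos ⟨_, (hP s).mpr hs, rfl⟩, flipAbove_append]
      rw [e2, List.map_map, Prod.swap_swap_eq, List.map_id]
    · have e1 : condFlip T.1 P u = u := by
        unfold condFlip
        rw [if_neg h]
      rw [e1, e1]
  let F : Tab → Tab := fun U => ⟨condFlip T.1 P U.1, hval U⟩
  have hF : Function.Involutive F := fun U => Subtype.ext (hinv U.1)
  have hadj : ∀ U V : Tab, (∃ c, U.1 = c :: V.1) → (∃ c, (F U).1 = c :: (F V).1) := by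
    rintro U V ⟨c, hc⟩
    by_cases hV : ∃ s, P s ∧ V.1 = s ++ T.1
    · obtain ⟨s, hs, hs'⟩ := hV
      have eV : (F V).1 = s.map Prod.swap ++ T.1 := by
        change condFlip T.1 P V.1 = _
        unfold condFlip
        rw [if_pos ⟨s, hs, hs'⟩, hs', flipAbove_append]
      by_cases hs0 : s = []
      · -- V = T
        subst hs0
        simp only [List.map_nil, List.nil_append] at eV hs'
        by_cases hU : ∃ s, P s ∧ U.1 = s ++ T.1
        · have eU : (F U).1 = [c.swap] ++ T.1 := by
            change condFlip T.1 P U.1 = _
            unfold condFlip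
            rw [if_pos hU, hc, hs']
            exact flipAbove_append T.1 [c]
          exact ⟨c.swap, by rw [eU, eV]; rfl⟩
        · have eU : (F U).1 = U.1 := by
            change condFlip T.1 P U.1 = _
            unfold condFlip
            rw [if_neg hU]
          exact ⟨c, by rw [eU, eV, hc, hs']⟩
      · have hPU : P (c :: s) := (hP' c s hs0).mpr hs
        have eU : (F U).1 = (c :: s).map Prod.swap ++ T.1 := by
          change condFlip T.1 P U.1 = _
          unfold condFlip
          rw [if_pos ⟨c :: s, hPU, by rw [hc, hs']; rfl⟩, hc, hs']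
          exact flipAbove_append T.1 (c :: s)
        exact ⟨c.swap, by rw [eU, eV]; rfl⟩
    · have eV : (F V).1 = V.1 := by
        change condFlip T.1 P V.1 = _
        unfold condFlip
        rw [if_neg hV]
      by_cases hU : ∃ s, P s ∧ U.1 = s ++ T.1
      · obtain ⟨s, hs, hs'⟩ := hU
        rcases s with _ | ⟨d, s⟩
        · -- U = T
          have eU : (F U).1 = U.1 := by
            change condFlip T.1 P U.1 = _
            unfold condFlip
            rw [if_pos ⟨[], hs, hs'⟩, hs']
            exact flipAbove_append T.1 []
          exact ⟨c, by rw [eU, eV, hc]⟩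
        · rw [hs'] at hc
          simp only [List.cons_append, List.cons.injEq] at hc
          obtain ⟨rfl, hc⟩ := hc
          by_cases hs0 : s = []
          · -- V = T
            subst hs0
            simp only [List.nil_append] at hc
            have eU : (F U).1 = [d.swap] ++ T.1 := by
              change condFlip T.1 P U.1 = _
              unfold condFlip
              rw [if_pos ⟨[d], hs, hs'⟩, hs']
              exact flipAbove_append T.1 [d]
            exact ⟨d.swap, by rw [eU, eV, ← hc]; rfl⟩
          · exact absurd ⟨s, (hP' d s hs0).mp hs, hc.symm⟩ hV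
      · have eU : (F U).1 = U.1 := by
          change condFlip T.1 P U.1 = _
          unfold condFlip
          rw [if_neg hU]
        exact ⟨c, by rw [eU, eV, hc]⟩
  have hadj' : ∀ U V : Tab, (∃ c, (F U).1 = c :: (F V).1) ↔ (∃ c, U.1 = c :: V.1) := by
    intro U V
    constructor
    · intro h
      have := hadj (F U) (F V) h
      rwa [hF U, hF V] at this
    · exact hadj U V
  exact
    { toFun := F
      invFun := F
      left_inv := hF
      right_inv := hF
      map_rel_iff' := by
        intro U V
        change ((∃ c, (F U).1 = c :: (F V).1) ∨ (∃ c, (F V).1 = c :: (F U).1)) ↔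
          ((∃ c, U.1 = c :: V.1) ∨ (∃ c, V.1 = c :: U.1))
        rw [hadj', hadj'] }

/-- The transpose automorphism `τ_T` at a tableau `T` of symmetric shape: it sends a descendant
`T ∪ S` of `T` to `T ∪ Sᵗ` and fixes all other tableaux. -/
noncomputable def transposeAut (T : Tab) (hT : SymmShape T.1) : tree ≃g tree :=
  condAut T hT (fun _ => True) (fun _ => Iff.rfl) (fun _ _ _ => Iff.rfl)

lemma transposeAut_descendant (T : Tab) (hT : SymmShape T.1) (U : Tab) (s : List (ℕ × ℕ))
    (h : U.1 = s ++ T.1) : (transposeAut T hT U).1 = s.map Prod.swap ++ T.1 := by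
  change condFlip T.1 _ U.1 = _
  unfold condFlip
  rw [if_pos ⟨s, trivial, h⟩, h, flipAbove_append]

lemma transposeAut_other (T : Tab) (hT : SymmShape T.1) (U : Tab)
    (h : ¬ ∃ s, U.1 = s ++ T.1) : transposeAut T hT U = U := by
  apply Subtype.ext
  change condFlip T.1 _ U.1 = _
  unfold condFlip
  rw [if_neg]
  rintro ⟨s, -, hs⟩
  exact h ⟨s, hs⟩

end Pool.Agent.Work.MP_edc67c_co
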