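import Mathlib
import Pool.Agent.Work.MP_edc67c_co.Defs

/-!
Shapes (finite lower sets of cells), addable and removable cells, and the number of chains.
-/

namespace Pool.Agent.Work.MP_edc67c_co

open Finset

/-- A finite set of cells is the diagram of a partition. -/
def Low (D : Finset (ℕ × ℕ)) : Prop :=
  ∀ a ∈ D, ∀ b : ℕ × ℕ, b.1 ≤ a.1 → b.2 ≤ a.2 → b ∈ D

/-- `c` is an addable cell of `D`. -/
def IsAdd (D : Finset (ℕ × ℕ)) (c : ℕ × ℕ) : Prop :=
  c ∉ D ∧ (c.1 = 0 ∨ (c.1 - 1, c.2) ∈ D) ∧ (c.2 = 0 ∨ (c.1, c.2 - 1) ∈ D)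

lemma addable_iff (l : List (ℕ × ℕ)) (c : ℕ × ℕ) : Addable l c ↔ IsAdd l.toFinset c := by
  unfold Addable IsAdd
  simp

open Classical in
/-- The addable cells of `D`. -/
noncomputable def adds (D : Finset (ℕ × ℕ)) : Finset (ℕ × ℕ) :=
  (insert (0, 0) (D.image (fun c => (c.1 + 1, c.2)) ∪ D.image (fun c => (c.1, c.2 + 1)))).filter
    (IsAdd D)

lemma mem_adds {D : Finset (ℕ × ℕ)} {c : ℕ × ℕ} : c ∈ adds D ↔ IsAdd D c := by
  classical
  unfold adds
  rw [mem_filter]
  refine ⟨fun h => h.2, fun h => ⟨?_, h⟩⟩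
  obtain ⟨a, b⟩ := c
  obtain ⟨h1, h2, h3⟩ := h
  simp only [mem_insert, mem_union, mem_image, Prod.mk.injEq, Prod.exists] at *
  by_cases ha : a = 0
  · by_cases hb : b = 0
    · left; exact ⟨ha, hb⟩
    · right; right
      rcases h3 with h3 | h3
      · exact absurd h3 hb
      · exact ⟨a, b - 1, h3, rfl, by omega⟩
  · right; left
    rcases h2 with h2 | h2
    · exact absurd h2 ha
    · exact ⟨a - 1, b, h2, by omega, rfl⟩

lemma low_empty : Low ∅ := fun a ha => absurd ha (notMem_empty a)

lemma low_insert {D : Finset (ℕ × ℕ)} (hD : Low D) {c : ℕ × ℕ} (hc : IsAdd D c) :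
    Low (insert c D) := by
  intro a ha b h1 h2
  rw [mem_insert] at ha ⊢
  rcases ha with rfl | ha
  · by_cases e : b = a
    · exact Or.inl e
    · right
      obtain ⟨-, h3, h4⟩ := hc
      by_cases e1 : b.1 = a.1
      · have e2 : b.2 < a.2 := by
          rcases h2.lt_or_eq with h | h
          · exact h
          · exact absurd (Prod.ext e1 h) e
        rcases h4 with h4 | h4
        · omega
        · exact hD _ h4 b h1 (by simp only; omega)
      · rcases h3 with h3 | h3
        · omega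
        · exact hD _ h3 b (by simp only; omega) h2
  · exact Or.inr (hD a ha b h1 h2)

lemma isAdd_of_low {D : Finset (ℕ × ℕ)} {c : ℕ × ℕ} (hc : c ∉ D) (h : Low (insert c D)) :
    IsAdd D c := by
  refine ⟨hc, ?_, ?_⟩
  · by_cases h0 : c.1 = 0
    · exact Or.inl h0
    · right
      have := h c (mem_insert_self _ _) (c.1 - 1, c.2) (by simp) le_rfl
      rw [mem_insert] at this
      rcases this with h1 | h1
      · have := congrArg Prod.fst h1
        simp only at this
        omega
      · exact h1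
  · by_cases h0 : c.2 = 0
    · exact Or.inl h0
    · right
      have := h c (mem_insert_self _ _) (c.1, c.2 - 1) le_rfl (by simp)
      rw [mem_insert] at this
      rcases this with h1 | h1
      · have := congrArg Prod.snd h1
        simp only at this
        omega
      · exact h1

lemma isTableau_low {l : List (ℕ × ℕ)} (h : IsTableau l) : Low l.toFinset := by
  induction l with
  | nil => exact low_empty
  | cons c l ih =>
    rw [List.toFinset_cons]
    exact low_insert (ih h.1) ((addable_iff l c).1 h.2)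

lemma isTableau_card {l : List (ℕ × ℕ)} (h : IsTableau l) : l.toFinset.card = l.length := by
  induction l with
  | nil => rfl
  | cons c l ih =>
    rw [List.toFinset_cons, card_insert_of_notMem ((addable_iff l c).1 h.2).1, ih h.1]
    rfl

open Classical in
/-- The removable cells of `D`. -/
noncomputable def rems (D : Finset (ℕ × ℕ)) : Finset (ℕ × ℕ) :=
  D.filter fun d => Low (D.erase d)

lemma mem_rems {D : Finset (ℕ × ℕ)} {d : ℕ × ℕ} : d ∈ rems D ↔ d ∈ D ∧ Low (D.erase d) := by
  classical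
  unfold rems
  rw [mem_filter]

/-- Rows. -/
noncomputable def row (D : Finset (ℕ × ℕ)) (i : ℕ) : ℕ := (D.filter fun c => c.1 = i).card

lemma mem_iff_row {D : Finset (ℕ × ℕ)} (hD : Low D) (i j : ℕ) : (i, j) ∈ D ↔ j < row D i := by
  classical
  -- the cells of row i are an initial segment
  have h1 : ∀ j, (i, j) ∈ D → j < row D i := by
    intro j hj
    unfold row
    have : (range (j + 1)).image (fun k => (i, k)) ⊆ D.filter fun c => c.1 = i := by
      intro c hc
      rw [mem_image] at hc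
      obtain ⟨k, hk, rfl⟩ := hc
      rw [mem_range] at hk
      rw [mem_filter]
      exact ⟨hD _ hj _ le_rfl (by simp only; omega), rfl⟩
    have h2 := card_le_card this
    rw [card_image_of_injective _ (fun a b h => (Prod.mk.inj h).2), card_range] at h2
    omega
  refine ⟨h1 j, fun h => ?_⟩
  by_contra hcon
  have : D.filter (fun c => c.1 = i) ⊆ (range j).image (fun k => (i, k)) := by
    intro c hc
    rw [mem_filter] at hc
    obtain ⟨hc, rfl⟩ := hc
    rw [mem_image]
    refine ⟨c.2, ?_, rfl⟩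
    rw [mem_range]
    by_contra h3
    push Not at h3
    exact hcon (hD c hc _ le_rfl h3)
  have h2 := card_le_card this
  rw [card_image_of_injective _ (fun a b h => (Prod.mk.inj h).2), card_range] at h2
  unfold row at h
  omega

lemma row_anti {D : Finset (ℕ × ℕ)} (hD : Low D) {i i' : ℕ} (h : i ≤ i') : row D i' ≤ row D i := by
  by_contra hcon
  push Not at hcon
  have h1 := (mem_iff_row hD i' (row D i)).2 hcon
  have h2 := hD _ h1 (i, row D i) h le_rfl
  have h3 := (mem_iff_row hD i (row D i)).1 h2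
  omega

/-- An index beyond the last row. -/
lemma exists_row_zero (D : Finset (ℕ × ℕ)) : ∃ L, ∀ i, L ≤ i → row D i = 0 := by
  classical
  refine ⟨D.sup (fun c => c.1) + 1, fun i hi => ?_⟩
  unfold row
  rw [card_eq_zero, filter_eq_empty_iff]
  intro c hc h
  have : c.1 ≤ D.sup (fun c => c.1) := le_sup (f := fun c : ℕ × ℕ => c.1) hc
  omega

lemma card_eq_sum_row (D : Finset (ℕ × ℕ)) {L : ℕ} (hL : ∀ i, L ≤ i → row D i = 0) :
    D.card = ∑ i ∈ range L, row D i := by
  classical
  unfold row at *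
  refine card_eq_sum_card_fiberwise (f := fun c : ℕ × ℕ => c.1) (t := range L) ?_
  intro c hc
  rw [coe_range, Set.mem_Iio]
  by_contra h
  push Not at h
  have := hL c.1 h
  rw [card_eq_zero, filter_eq_empty_iff] at this
  exact this hc rfl

lemma isAdd_iff_row {D : Finset (ℕ × ℕ)} (hD : Low D) (i j : ℕ) :
    IsAdd D (i, j) ↔ j = row D i ∧ (i = 0 ∨ row D i < row D (i - 1)) := by
  unfold IsAdd
  simp only
  rw [mem_iff_row hD, mem_iff_row hD, mem_iff_row hD]
  constructor
  · rintro ⟨h1, h2, h3⟩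
    have e : j = row D i := by omega
    refine ⟨e, ?_⟩
    rcases h2 with h2 | h2
    · exact Or.inl h2
    · right; omega
  · rintro ⟨rfl, h⟩
    refine ⟨lt_irrefl _, h, ?_⟩
    omega

lemma mem_rems_iff_row {D : Finset (ℕ × ℕ)} (hD : Low D) (i j : ℕ) :
    (i, j) ∈ rems D ↔ row D i = j + 1 ∧ row D (i + 1) < row D i := by
  rw [mem_rems]
  constructor
  · rintro ⟨h1, h2⟩
    have e1 := (mem_iff_row hD i j).1 h1
    have e2 : ¬ (j + 1 < row D i) := by
      intro h
      have h3 := (mem_iff_row hD i (j + 1)).2 h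
      have h4 := h2 (i, j + 1) (by rw [mem_erase]; exact ⟨by simp, h3⟩) (i, j) le_rfl (by simp)
      exact notMem_erase _ _ h4
    have e3 : ¬ (j < row D (i + 1)) := by
      intro h
      have h3 := (mem_iff_row hD (i + 1) j).2 h
      have h4 := h2 (i + 1, j) (by rw [mem_erase]; exact ⟨by simp, h3⟩) (i, j) (by simp) le_rfl
      exact notMem_erase _ _ h4
    omega
  · rintro ⟨h1, h2⟩
    refine ⟨(mem_iff_row hD i j).2 (by omega), ?_⟩
    intro a ha b hb1 hb2
    rw [mem_erase] at ha ⊢
    refine ⟨?_, hD a ha.2 b hb1 hb2⟩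
    rintro rfl
    simp only at hb1 hb2
    obtain ⟨a1, a2⟩ := a
    simp only at hb1 hb2
    have h3 := (mem_iff_row hD a1 a2).1 ha.2
    by_cases e : a1 = i
    · subst e
      apply ha.1
      rw [Prod.mk.injEq]
      exact ⟨rfl, by omega⟩
    · have h4 := row_anti hD (show i + 1 ≤ a1 by omega)
      omega

lemma sum_adds {D : Finset (ℕ × ℕ)} (hD : Low D) {L : ℕ} (hL : ∀ i, L ≤ i → row D i = 0)
    (w : ℕ × ℕ → ℚ) :
    ∑ c ∈ adds D, w c = w (0, row D 0) +
      ∑ i ∈ range L, if row D (i + 1) < row D i then w (i + 1, row D (i + 1)) else 0 := by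
  classical
  have h0 : (0, row D 0) ∈ adds D := by
    rw [mem_adds, isAdd_iff_row hD]
    exact ⟨rfl, Or.inl rfl⟩
  rw [← add_sum_erase _ _ h0]
  congr 1
  rw [← sum_filter]
  symm
  refine sum_bij (fun i _ => (i + 1, row D (i + 1))) ?_ ?_ ?_ ?_
  · intro i hi
    rw [mem_filter] at hi
    rw [mem_erase, mem_adds, isAdd_iff_row hD]
    refine ⟨by simp, rfl, Or.inr ?_⟩
    simpa using hi.2
  · intro i _ i' _ h
    have := (Prod.mk.inj h).1
    omega
  · rintro ⟨a, b⟩ hab
    rw [mem_erase, mem_adds, isAdd_iff_row hD] at hab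
    obtain ⟨h1, rfl, h3⟩ := hab
    have ha : a ≠ 0 := by
      rintro rfl
      exact h1 rfl
    have h4 : row D a < row D (a - 1) := by
      rcases h3 with h3 | h3
      · exact absurd h3 ha
      · exact h3
    refine ⟨a - 1, ?_, ?_⟩
    · rw [mem_filter, mem_range]
      have e : a - 1 + 1 = a := by omega
      rw [e]
      refine ⟨?_, h4⟩
      by_contra h5
      push Not at h5
      have := hL _ h5
      omega
    · have e : a - 1 + 1 = a := by omega
      rw [e]
  · intro i _
    rfl

lemma sum_rems {D : Finset (ℕ × ℕ)} (hD : Low D) {L : ℕ} (hL : ∀ i, L ≤ i → row D i = 0)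
    (w : ℕ × ℕ → ℚ) :
    ∑ c ∈ rems D, w c =
      ∑ i ∈ range L, if row D (i + 1) < row D i then w (i, row D i - 1) else 0 := by
  classical
  rw [← sum_filter]
  symm
  refine sum_bij (fun i _ => (i, row D i - 1)) ?_ ?_ ?_ ?_
  · intro i hi
    rw [mem_filter] at hi
    rw [mem_rems_iff_row hD]
    omega
  · intro i _ i' _ h
    exact (Prod.mk.inj h).1
  · rintro ⟨a, b⟩ hab
    rw [mem_rems_iff_row hD] at hab
    refine ⟨a, ?_, ?_⟩
    · rw [mem_filter, mem_range]
      refine ⟨?_, hab.2⟩
      by_contra h5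
      push Not at h5
      have := hL _ h5
      omega
    · rw [Prod.mk.injEq]
      exact ⟨rfl, by omega⟩
  · intro i _
    rfl

/-- The content of a cell. -/
def ct (c : ℕ × ℕ) : ℚ := (c.2 : ℚ) - (c.1 : ℚ)

/-- The boundary identity. -/
lemma boundary {D : Finset (ℕ × ℕ)} (hD : Low D) {L : ℕ} (hL : ∀ i, L ≤ i → row D i = 0)
    (w : ℚ → ℚ) :
    ∑ c ∈ adds D, w (ct c) - ∑ c ∈ rems D, w (ct c) =
      w (row D 0) + ∑ i ∈ range L,
        (w ((row D (i + 1) : ℚ) - (i + 1)) - w ((row D i : ℚ) - (i + 1))) := by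
  rw [sum_adds hD hL, sum_rems hD hL, add_sub_assoc, ← sum_sub_distrib]
  congr 1
  · unfold ct
    simp
  · refine sum_congr rfl fun i _ => ?_
    by_cases h : row D (i + 1) < row D i
    · rw [if_pos h, if_pos h]
      unfold ct
      congr 2
      · push_cast; ring
      · simp only
        rw [Nat.cast_sub (by omega)]
        push_cast
        ring
    · rw [if_neg h, if_neg h]
      have : row D (i + 1) = row D i := le_antisymm (row_anti hD (by omega)) (by omega)
      rw [this]
      ring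

lemma boundary_one {D : Finset (ℕ × ℕ)} (hD : Low D) :
    ∑ _c ∈ adds D, (1 : ℚ) - ∑ _c ∈ rems D, (1 : ℚ) = 1 := by
  obtain ⟨L, hL⟩ := exists_row_zero D
  have := boundary hD hL (fun _ => 1)
  simp only [sub_self, sum_const_zero, add_zero] at this
  exact this

lemma boundary_ct {D : Finset (ℕ × ℕ)} (hD : Low D) :
    ∑ c ∈ adds D, ct c - ∑ c ∈ rems D, ct c = 0 := by
  obtain ⟨L, hL⟩ := exists_row_zero D
  have := boundary hD hL (fun x => x)
  rw [this]
  have h2 : ∀ i, ((row D (i + 1) : ℚ) - (i + 1)) - ((row D i : ℚ) - (i + 1)) =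
      (row D (i + 1) : ℚ) - row D i := fun i => by ring
  rw [sum_congr rfl fun i _ => h2 i, sum_range_sub (fun i => (row D i : ℚ)), hL L le_rfl]
  simp

lemma boundary_sq {D : Finset (ℕ × ℕ)} (hD : Low D) :
    ∑ c ∈ adds D, ct c ^ 2 - ∑ c ∈ rems D, ct c ^ 2 = 2 * D.card := by
  obtain ⟨L, hL⟩ := exists_row_zero D
  have := boundary hD hL (fun x => x ^ 2)
  rw [this, card_eq_sum_row D hL]
  have h2 : ∀ i : ℕ, ((row D (i + 1) : ℚ) - (i + 1)) ^ 2 - ((row D i : ℚ) - (i + 1)) ^ 2 =
      (((row D (i + 1) : ℚ) ^ 2 - 2 * (i + 1 : ℕ) * row D (i + 1)) -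
        ((row D i : ℚ) ^ 2 - 2 * i * row D i)) + 2 * row D i := fun i => by push_cast; ring
  rw [sum_congr rfl fun i _ => h2 i, sum_add_distrib,
    sum_range_sub (fun i : ℕ => (row D i : ℚ) ^ 2 - 2 * i * row D i), hL L le_rfl, ← mul_sum]
  push_cast
  ring

end Pool.Agent.Work.MP_edc67c_co
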