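import Mathlib
import Pool.Agent.Work.MP_edc67c_co.Shapes

/-!
Numbers of chains in the lattice of shapes, and the product formula for the number of chains
from a shape to a rectangle.
-/

namespace Pool.Agent.Work.MP_edc67c_co

open Finset

/-- The number of chains from the empty shape to `D`, with the size of `D` as first argument. -/
noncomputable def Fa : ℕ → Finset (ℕ × ℕ) → ℚ
  | 0, _ => 1
  | n + 1, D => ∑ d ∈ rems D, Fa n (D.erase d)

/-- The number of standard Young tableaux of shape `D`. -/
noncomputable def F (D : Finset (ℕ × ℕ)) : ℚ := Fa D.card D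

lemma F_succ {D : Finset (ℕ × ℕ)} {n : ℕ} (h : D.card = n + 1) :
    F D = ∑ d ∈ rems D, F (D.erase d) := by
  unfold F
  rw [h]
  show ∑ d ∈ rems D, Fa n (D.erase d) = _
  refine sum_congr rfl fun d hd => ?_
  rw [card_erase_of_mem (mem_rems.1 hd).1, h]
  rfl

lemma F_empty : F ∅ = 1 := rfl

lemma rems_empty : rems ∅ = ∅ := by
  ext d
  rw [mem_rems]
  simp

lemma rems_nonempty {D : Finset (ℕ × ℕ)} (hD : Low D) (h : D ≠ ∅) : (rems D).Nonempty := by
  classical
  by_contra hcon
  rw [not_nonempty_iff_eq_empty] at hcon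
  have h1 := boundary_one hD
  obtain ⟨L, hL⟩ := exists_row_zero D
  -- last nonzero row
  have hne : ∃ i, row D i ≠ 0 := by
    obtain ⟨⟨a, b⟩, hc⟩ := nonempty_iff_ne_empty.2 h
    exact ⟨a, by have := (mem_iff_row hD a b).1 hc; omega⟩
  have hfin : ∃ i, row D i ≠ 0 ∧ row D (i + 1) = 0 := by
    by_contra h2
    push Not at h2
    obtain ⟨i, hi⟩ := hne
    have : ∀ k, row D (i + k) ≠ 0 := by
      intro k
      induction k with
      | zero => exact hi
      | succ k ih => exact h2 _ ih
    exact this L (hL _ (by omega))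
  obtain ⟨i, h2, h3⟩ := hfin
  have h4 : (i, row D i - 1) ∈ rems D := by
    rw [mem_rems_iff_row hD]
    omega
  rw [hcon] at h4
  exact notMem_empty _ h4

lemma F_pos (D : Finset (ℕ × ℕ)) (hD : Low D) : 0 < F D := by
  induction h : D.card generalizing D with
  | zero =>
    rw [card_eq_zero] at h
    rw [h, F_empty]
    norm_num
  | succ n ih =>
    rw [F_succ h]
    refine sum_pos (fun d hd => ?_) (rems_nonempty hD ?_)
    · refine ih _ (mem_rems.1 hd).2 ?_
      rw [card_erase_of_mem (mem_rems.1 hd).1, h]
      rfl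
    · rintro rfl
      simp at h

/-- Exchange of adding and removing a cell. -/
lemma exchange {D : Finset (ℕ × ℕ)} (hD : Low D) (g : ℕ × ℕ → ℕ × ℕ → ℚ) :
    ∑ c ∈ adds D, ∑ d ∈ (rems (insert c D)).erase c, g c d =
      ∑ d ∈ rems D, ∑ c ∈ (adds (D.erase d)).erase d, g c d := by
  classical
  rw [sum_sigma', sum_sigma']
  refine sum_bij' (fun x _ => ⟨x.2, x.1⟩) (fun x _ => ⟨x.2, x.1⟩) ?_ ?_ ?_ ?_ ?_
  · rintro ⟨c, d⟩ h
    simp only [mem_sigma, mem_erase, mem_adds, mem_rems] at h ⊢
    obtain ⟨h1, h2, h3, h4⟩ := h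
    have hdD : d ∈ D := by
      rw [mem_insert] at h3
      rcases h3 with h3 | h3
      · exact absurd h3 h2
      · exact h3
    have e : (insert c D).erase d = insert c (D.erase d) := by
      rw [erase_insert_of_ne (Ne.symm h2)]
    refine ⟨⟨hdD, ?_⟩, Ne.symm h2, ?_⟩
    · intro a ha b hb1 hb2
      rw [mem_erase] at ha
      have h5 := h4 a (by rw [mem_erase, mem_insert]; exact ⟨ha.1, Or.inr ha.2⟩) b hb1 hb2
      rw [mem_erase] at h5 ⊢
      exact ⟨h5.1, hD a ha.2 b hb1 hb2⟩
    · apply isAdd_of_low
      · rw [mem_erase]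
        exact fun h => h1.1 h.2
      · rw [← e]; exact h4
  · rintro ⟨d, c⟩ h
    simp only [mem_sigma, mem_erase, mem_adds, mem_rems] at h ⊢
    obtain ⟨⟨h1, h2⟩, h3, h4⟩ := h
    have hcD : c ∉ D := by
      intro h
      exact h4.1 (by rw [mem_erase]; exact ⟨h3, h⟩)
    have e : (insert c D).erase d = insert c (D.erase d) := by
      rw [erase_insert_of_ne h3]
    have h5 : Low (insert c (D.erase d)) := low_insert h2 h4
    have h6 : Low (insert c D) := by
      intro a ha b hb1 hb2
      rw [mem_insert] at ha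
      rcases ha with rfl | ha
      · have := h5 a (mem_insert_self _ _) b hb1 hb2
        rw [mem_insert, mem_erase] at this
        rw [mem_insert]
        tauto
      · rw [mem_insert]
        exact Or.inr (hD a ha b hb1 hb2)
    refine ⟨isAdd_of_low hcD h6, Ne.symm h3, ?_, ?_⟩
    · rw [mem_insert]; exact Or.inr h1
    · rw [e]; exact h5
  · rintro ⟨c, d⟩ _; rfl
  · rintro ⟨d, c⟩ _; rfl
  · rintro ⟨c, d⟩ _; rfl

/-- The recursion for weighted sums over addable cells. -/
lemma weighted {D : Finset (ℕ × ℕ)} (hD : Low D) (w : ℕ × ℕ → ℚ) :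
    ∑ c ∈ adds D, w c * F (insert c D) =
      F D * (∑ c ∈ adds D, w c - ∑ d ∈ rems D, w d) +
        ∑ d ∈ rems D, ∑ c ∈ adds (D.erase d), w c * F (insert c (D.erase d)) := by
  classical
  have h1 : ∀ c ∈ adds D, w c * F (insert c D) =
      w c * F D + ∑ d ∈ (rems (insert c D)).erase c, w c * F ((insert c D).erase d) := by
    intro c hc
    have hc' := mem_adds.1 hc
    have hcard : (insert c D).card = D.card + 1 := card_insert_of_notMem hc'.1
    have hmem : c ∈ rems (insert c D) := by
      rw [mem_rems]
      refine ⟨mem_insert_self _ _, ?_⟩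
      rw [erase_insert hc'.1]
      exact hD
    rw [F_succ hcard, ← add_sum_erase _ _ hmem, erase_insert hc'.1, mul_add, mul_sum]
  rw [sum_congr rfl h1, sum_add_distrib, exchange hD (fun c d => w c * F ((insert c D).erase d)),
    ← sum_mul]
  have h2 : ∀ d ∈ rems D, ∑ c ∈ (adds (D.erase d)).erase d, w c * F ((insert c D).erase d) =
      ∑ c ∈ adds (D.erase d), w c * F (insert c (D.erase d)) - w d * F D := by
    intro d hd
    have hd' := mem_rems.1 hd
    have hmem : d ∈ adds (D.erase d) := by
      rw [mem_adds]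
      apply isAdd_of_low (notMem_erase _ _)
      rw [insert_erase hd'.1]
      exact hD
    rw [← add_sum_erase _ _ hmem, insert_erase hd'.1]
    have h3 : ∀ c ∈ (adds (D.erase d)).erase d, w c * F ((insert c D).erase d) =
        w c * F (insert c (D.erase d)) := by
      intro c hc
      rw [erase_insert_of_ne (mem_erase.1 hc).1]
    rw [sum_congr rfl h3]
    ring
  rw [sum_congr rfl h2, sum_sub_distrib, ← sum_mul]
  ring

lemma sum_one (D : Finset (ℕ × ℕ)) (hD : Low D) :
    ∑ c ∈ adds D, F (insert c D) = (D.card + 1) * F D := by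
  induction h : D.card generalizing D with
  | zero =>
    have h1 := weighted hD (fun _ => 1)
    rw [card_eq_zero] at h
    subst h
    have h2 : rems ∅ = ∅ := rems_empty
    rw [boundary_one hD, h2, sum_empty] at h1
    simp only [one_mul] at h1
    rw [h1]
    simp
  | succ n ih =>
    have h1 := weighted hD (fun _ => 1)
    rw [boundary_one hD] at h1
    simp only [one_mul] at h1
    rw [h1]
    have h2 : ∀ d ∈ rems D, ∑ c ∈ adds (D.erase d), F (insert c (D.erase d)) =
        (n + 1) * F (D.erase d) := by
      intro d hd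
      refine ih _ (mem_rems.1 hd).2 ?_
      rw [card_erase_of_mem (mem_rems.1 hd).1, h]
      rfl
    rw [sum_congr rfl h2, ← mul_sum, ← F_succ h]
    push_cast
    ring

lemma sum_ct (D : Finset (ℕ × ℕ)) (hD : Low D) :
    ∑ c ∈ adds D, ct c * F (insert c D) = 0 := by
  induction h : D.card generalizing D with
  | zero =>
    have h1 := weighted hD ct
    rw [card_eq_zero] at h
    subst h
    have h2 : rems ∅ = ∅ := rems_empty
    rw [boundary_ct hD, h2, sum_empty] at h1
    rw [h1]
    simp
  | succ n ih =>
    have h1 := weighted hD ct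
    rw [boundary_ct hD] at h1
    rw [h1]
    have h2 : ∀ d ∈ rems D, ∑ c ∈ adds (D.erase d), ct c * F (insert c (D.erase d)) = 0 := by
      intro d hd
      refine ih _ (mem_rems.1 hd).2 ?_
      rw [card_erase_of_mem (mem_rems.1 hd).1, h]
      rfl
    rw [sum_congr rfl h2]
    simp

lemma sum_sq (D : Finset (ℕ × ℕ)) (hD : Low D) :
    ∑ c ∈ adds D, ct c ^ 2 * F (insert c D) = D.card * (D.card + 1) * F D := by
  induction h : D.card generalizing D with
  | zero =>
    have h1 := weighted hD (fun c => ct c ^ 2)
    rw [card_eq_zero] at h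
    subst h
    have h2 : rems ∅ = ∅ := rems_empty
    rw [boundary_sq hD, h2, sum_empty] at h1
    rw [h1]
    simp
  | succ n ih =>
    have h1 := weighted hD (fun c => ct c ^ 2)
    rw [boundary_sq hD] at h1
    rw [h1]
    have h2 : ∀ d ∈ rems D, ∑ c ∈ adds (D.erase d), ct c ^ 2 * F (insert c (D.erase d)) =
        n * (n + 1) * F (D.erase d) := by
      intro d hd
      refine ih _ (mem_rems.1 hd).2 ?_
      rw [card_erase_of_mem (mem_rems.1 hd).1, h]
      rfl
    rw [sum_congr rfl h2, ← mul_sum, ← F_succ h, h]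
    push_cast
    ring

lemma sum_prod (D : Finset (ℕ × ℕ)) (hD : Low D) (A B : ℚ) :
    ∑ c ∈ adds D, (A - ct c) * (B + ct c) * F (insert c D) =
      (D.card + 1) * (A * B - D.card) * F D := by
  have h1 := sum_one D hD
  have h2 := sum_ct D hD
  have h3 := sum_sq D hD
  have h4 : ∀ c ∈ adds D, (A - ct c) * (B + ct c) * F (insert c D) =
      A * B * F (insert c D) + (A - B) * (ct c * F (insert c D)) -
        ct c ^ 2 * F (insert c D) := fun c _ => by ring
  rw [sum_congr rfl h4, sum_sub_distrib, sum_add_distrib, ← mul_sum, ← mul_sum, h1, h2, h3]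
  ring

/-- The number of chains of length `k` starting at `D`, with the end weighted by `v`. -/
noncomputable def cnt (v : Finset (ℕ × ℕ) → ℚ) : ℕ → Finset (ℕ × ℕ) → ℚ
  | 0, D => v D
  | k + 1, D => ∑ c ∈ adds D, cnt v k (insert c D)

lemma cnt_congr {v v' : Finset (ℕ × ℕ) → ℚ} (k : ℕ) (D : Finset (ℕ × ℕ)) (hD : Low D)
    (h : ∀ E, Low E → D ⊆ E → E.card = D.card + k → v E = v' E) : cnt v k D = cnt v' k D := by
  induction k generalizing D with
  | zero => exact h D hD (Subset.refl _) rfl
  | succ k ih =>
    show ∑ c ∈ adds D, cnt v k (insert c D) = ∑ c ∈ adds D, cnt v' k (insert c D)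
    refine sum_congr rfl fun c hc => ?_
    have hc' := mem_adds.1 hc
    refine ih _ (low_insert hD hc') fun E hE hDE hcard => ?_
    rw [card_insert_of_notMem hc'.1] at hcard
    exact h E hE ((subset_insert _ _).trans hDE) (by omega)

lemma cnt_sum {ι : Type} (s : Finset ι) (v : ι → Finset (ℕ × ℕ) → ℚ) (k : ℕ)
    (D : Finset (ℕ × ℕ)) : cnt (fun E => ∑ i ∈ s, v i E) k D = ∑ i ∈ s, cnt (v i) k D := by
  induction k generalizing D with
  | zero => rfl
  | succ k ih =>
    show ∑ c ∈ adds D, cnt _ k (insert c D) = ∑ i ∈ s, ∑ c ∈ adds D, cnt (v i) k (insert c D)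
    rw [sum_comm]
    exact sum_congr rfl fun c _ => ih _

lemma cnt_nonneg {v : Finset (ℕ × ℕ) → ℚ} (h : ∀ E, 0 ≤ v E) (k : ℕ) (D : Finset (ℕ × ℕ)) :
    0 ≤ cnt v k D := by
  induction k generalizing D with
  | zero => exact h D
  | succ k ih => exact sum_nonneg fun c _ => ih _

open Classical in
/-- The indicator of the shape `R`. -/
noncomputable def ind (R : Finset (ℕ × ℕ)) (E : Finset (ℕ × ℕ)) : ℚ := if E = R then 1 else 0

lemma cnt_ind_not_subset {R : Finset (ℕ × ℕ)} (k : ℕ) (D : Finset (ℕ × ℕ)) (h : ¬ D ⊆ R) :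
    cnt (ind R) k D = 0 := by
  induction k generalizing D with
  | zero =>
    show ind R D = 0
    unfold ind
    rw [if_neg]
    rintro rfl
    exact h (Subset.refl _)
  | succ k ih =>
    show ∑ c ∈ adds D, cnt _ k (insert c D) = 0
    refine sum_eq_zero fun c _ => ih _ fun h2 => h ((subset_insert _ _).trans h2)

/-- The rectangle with `b` rows and `a` columns. -/
def rect (b a : ℕ) : Finset (ℕ × ℕ) := range b ×ˢ range a

lemma mem_rect {b a : ℕ} {c : ℕ × ℕ} : c ∈ rect b a ↔ c.1 < b ∧ c.2 < a := by
  unfold rect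
  rw [mem_product, mem_range, mem_range]

lemma card_rect (b a : ℕ) : (rect b a).card = b * a := by
  unfold rect
  rw [card_product, card_range, card_range]

lemma low_rect (b a : ℕ) : Low (rect b a) := by
  intro c hc d h1 h2
  rw [mem_rect] at hc ⊢
  omega

/-- The product of `(A - c)(B + c)` over the contents. -/
noncomputable def pr (A B : ℚ) (D : Finset (ℕ × ℕ)) : ℚ := ∏ c ∈ D, ((A - ct c) * (B + ct c))

/-- The constant in the product formula. -/
noncomputable def KK (b a : ℕ) : ℚ :=
  pr a b (rect b a) * F (rect b a) / ((b * a).factorial : ℚ)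

lemma KK_pos (b a : ℕ) : 0 < KK b a := by
  unfold KK
  refine div_pos (mul_pos (prod_pos fun c hc => ?_) (F_pos _ (low_rect b a))) (by positivity)
  rw [mem_rect] at hc
  unfold ct
  have h1 : (c.2 : ℚ) < a := by exact_mod_cast hc.2
  have h2 : (c.1 : ℚ) < b := by exact_mod_cast hc.1
  have h3 : (0 : ℚ) ≤ c.1 := by positivity
  have h4 : (0 : ℚ) ≤ c.2 := by positivity
  refine mul_pos (by linarith) (by linarith)

/-- The product formula for the number of chains from `D` to a rectangle. -/
theorem product_formula {b a : ℕ} (hb : 0 < b) (ha : 0 < a) (k : ℕ) (D : Finset (ℕ × ℕ))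
    (hD : Low D) (hsub : D ⊆ rect b a) (hcard : D.card + k = b * a) :
    cnt (ind (rect b a)) k D * KK b a =
      (k.factorial : ℚ) * pr a b D * F D / (D.card.factorial : ℚ) := by
  induction k generalizing D with
  | zero =>
    have e : D = rect b a := eq_of_subset_of_card_le hsub (by rw [card_rect]; omega)
    show ind (rect b a) D * KK b a = _
    unfold ind
    rw [if_pos e, e, card_rect]
    unfold KK
    simp
  | succ k ih =>
    show (∑ c ∈ adds D, cnt _ k (insert c D)) * KK b a = _
    rw [sum_mul]
    have h1 : ∀ c ∈ adds D, cnt (ind (rect b a)) k (insert c D) * KK b a =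
        (k.factorial : ℚ) * pr a b D / ((D.card + 1).factorial : ℚ) *
          (((a : ℚ) - ct c) * (b + ct c) * F (insert c D)) := by
      intro c hc
      have hc' := mem_adds.1 hc
      by_cases hcR : c ∈ rect b a
      · rw [ih _ (low_insert hD hc') (insert_subset hcR hsub)
          (by rw [card_insert_of_notMem hc'.1]; omega), card_insert_of_notMem hc'.1]
        unfold pr
        rw [prod_insert hc'.1]
        ring
      · have h2 : cnt (ind (rect b a)) k (insert c D) = 0 :=
          cnt_ind_not_subset k _ fun h => hcR (h (mem_insert_self _ _))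
        have h3 : ((a : ℚ) - ct c) * (b + ct c) = 0 := by
          obtain ⟨c1, c2⟩ := c
          obtain ⟨-, h4, h5⟩ := hc'
          simp only at h4 h5
          have h4' : c1 = 0 ∨ (c1 - 1 < b ∧ c2 < a) := by
            rcases h4 with h4 | h4
            · exact Or.inl h4
            · right; have := mem_rect.1 (hsub h4); simpa using this
          have h5' : c2 = 0 ∨ (c1 < b ∧ c2 - 1 < a) := by
            rcases h5 with h5 | h5
            · exact Or.inl h5
            · right; have := mem_rect.1 (hsub h5); simpa using this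
          rw [mem_rect] at hcR
          simp only at hcR
          rw [mul_eq_zero]
          unfold ct
          simp only
          by_cases h6 : c1 < b
          · left
            have h7 : c1 = 0 := by omega
            have h8 : c2 = a := by omega
            rw [h7, h8]; simp
          · right
            have h7 : c2 = 0 := by omega
            have h8 : c1 = b := by omega
            rw [h7, h8]; simp
        rw [h2, h3]
        ring
    rw [sum_congr rfl h1, ← mul_sum, sum_prod D hD]
    have hk : ((a : ℚ) * b - D.card) = k + 1 := by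
      have : ((D.card + (k + 1) : ℕ) : ℚ) = ((b * a : ℕ) : ℚ) := by rw [hcard]
      push_cast at this
      linarith
    rw [hk, Nat.factorial_succ, Nat.factorial_succ]
    push_cast
    have h9 : ((D.card : ℚ) + 1) ≠ 0 := by positivity
    have h10 : ((D.card.factorial : ℕ) : ℚ) ≠ 0 := by positivity
    field_simp

end Pool.Agent.Work.MP_edc67c_co
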