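import Mathlib
import Pool.Agent.Work.MP_edc67c_co.Chains

/-!
The numbers of chains from a shape to rectangles determine the shape up to transposition.
-/

namespace Pool.Agent.Work.MP_edc67c_co

open Finset

/-- The transpose of a shape. -/
def tr (D : Finset (ℕ × ℕ)) : Finset (ℕ × ℕ) := D.image Prod.swap

lemma mem_tr {D : Finset (ℕ × ℕ)} {c : ℕ × ℕ} : c ∈ tr D ↔ c.swap ∈ D := by
  unfold tr
  rw [mem_image]
  constructor
  · rintro ⟨d, hd, rfl⟩
    simpa using hd
  · intro h
    exact ⟨c.swap, h, by simp⟩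

lemma tr_tr (D : Finset (ℕ × ℕ)) : tr (tr D) = D := by
  ext c
  rw [mem_tr, mem_tr, Prod.swap_swap]

lemma card_tr (D : Finset (ℕ × ℕ)) : (tr D).card = D.card :=
  card_image_of_injective _ Prod.swap_injective

lemma low_tr {D : Finset (ℕ × ℕ)} (h : Low D) : Low (tr D) := by
  intro a ha b h1 h2
  rw [mem_tr] at ha ⊢
  exact h _ ha _ h2 h1

lemma isAdd_tr {D : Finset (ℕ × ℕ)} {c : ℕ × ℕ} : IsAdd (tr D) c ↔ IsAdd D c.swap := by
  unfold IsAdd
  rw [mem_tr, mem_tr, mem_tr]
  simp only [Prod.fst_swap, Prod.snd_swap, Prod.swap_prod_mk]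
  tauto

lemma tr_insert (D : Finset (ℕ × ℕ)) (c : ℕ × ℕ) : tr (insert c D) = insert c.swap (tr D) := by
  unfold tr
  rw [image_insert]

lemma tr_erase (D : Finset (ℕ × ℕ)) (c : ℕ × ℕ) : tr (D.erase c) = (tr D).erase c.swap := by
  ext d
  rw [mem_tr, mem_erase, mem_erase, mem_tr]
  refine and_congr ?_ Iff.rfl
  constructor
  · rintro h rfl
    exact h (Prod.swap_swap _)
  · rintro h rfl
    exact h (Prod.swap_swap _).symm

lemma sum_adds_tr (D : Finset (ℕ × ℕ)) (w : ℕ × ℕ → ℚ) :
    ∑ c ∈ adds (tr D), w c = ∑ c ∈ adds D, w c.swap := by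
  refine sum_bij' (fun c _ => c.swap) (fun c _ => c.swap) ?_ ?_ ?_ ?_ ?_
  · intro c hc
    rw [mem_adds, isAdd_tr] at hc
    rwa [mem_adds]
  · intro c hc
    rw [mem_adds] at hc
    rw [mem_adds, isAdd_tr, Prod.swap_swap]
    exact hc
  · intro c _; exact Prod.swap_swap c
  · intro c _; exact Prod.swap_swap c
  · intro c _; rw [Prod.swap_swap]

lemma mem_rems_tr {D : Finset (ℕ × ℕ)} {c : ℕ × ℕ} : c ∈ rems (tr D) ↔ c.swap ∈ rems D := by
  rw [mem_rems, mem_rems, mem_tr]
  have e : (tr D).erase c = tr (D.erase c.swap) := by rw [tr_erase, Prod.swap_swap]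
  rw [e]
  refine and_congr Iff.rfl ⟨fun h => ?_, fun h => low_tr h⟩
  have := low_tr h
  rwa [tr_tr] at this

lemma sum_rems_tr (D : Finset (ℕ × ℕ)) (w : ℕ × ℕ → ℚ) :
    ∑ c ∈ rems (tr D), w c = ∑ c ∈ rems D, w c.swap := by
  refine sum_bij' (fun c _ => c.swap) (fun c _ => c.swap) ?_ ?_ ?_ ?_ ?_
  · intro c hc
    exact mem_rems_tr.1 hc
  · intro c hc
    rw [mem_rems_tr, Prod.swap_swap]
    exact hc
  · intro c _; exact Prod.swap_swap c
  · intro c _; exact Prod.swap_swap c
  · intro c _; rw [Prod.swap_swap]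

lemma Fa_tr (n : ℕ) (D : Finset (ℕ × ℕ)) : Fa n (tr D) = Fa n D := by
  induction n generalizing D with
  | zero => rfl
  | succ n ih =>
    show ∑ d ∈ rems (tr D), Fa n ((tr D).erase d) = ∑ d ∈ rems D, Fa n (D.erase d)
    rw [sum_rems_tr]
    refine sum_congr rfl fun d _ => ?_
    rw [← tr_erase, ih]

lemma F_tr (D : Finset (ℕ × ℕ)) : F (tr D) = F D := by
  unfold F
  rw [card_tr, Fa_tr]

lemma cnt_tr (v : Finset (ℕ × ℕ) → ℚ) (k : ℕ) (D : Finset (ℕ × ℕ)) :
    cnt v k (tr D) = cnt (fun E => v (tr E)) k D := by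
  induction k generalizing D with
  | zero => rfl
  | succ k ih =>
    show ∑ c ∈ adds (tr D), cnt v k (insert c (tr D)) =
      ∑ c ∈ adds D, cnt (fun E => v (tr E)) k (insert c D)
    rw [sum_adds_tr]
    refine sum_congr rfl fun c _ => ?_
    rw [← tr_insert, ih]

lemma ind_tr (R E : Finset (ℕ × ℕ)) : ind R (tr E) = ind (tr R) E := by
  unfold ind
  refine if_congr ?_ rfl rfl
  constructor
  · rintro rfl; rw [tr_tr]
  · rintro rfl; rw [tr_tr]

lemma tr_rect (b a : ℕ) : tr (rect b a) = rect a b := by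
  ext c
  rw [mem_tr, mem_rect, mem_rect]
  simp only [Prod.fst_swap, Prod.snd_swap]
  tauto

lemma ct_swap (c : ℕ × ℕ) : ct c.swap = - ct c := by
  unfold ct
  simp

lemma pr_tr (A B : ℚ) (D : Finset (ℕ × ℕ)) : pr A B (tr D) = pr B A D := by
  unfold pr tr
  rw [prod_image (fun a _ b _ h => Prod.swap_injective h)]
  refine prod_congr rfl fun c _ => ?_
  rw [ct_swap]
  ring

lemma KK_symm (b a : ℕ) : KK b a = KK a b := by
  unfold KK
  rw [← tr_rect a b, pr_tr, F_tr, mul_comm b a]

lemma cnt_col (N k : ℕ) (D : Finset (ℕ × ℕ)) :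
    cnt (ind (rect N 1)) k D = cnt (ind (rect 1 N)) k (tr D) := by
  rw [cnt_tr]
  congr 1
  funext E
  rw [ind_tr, tr_rect]

lemma lt_card {D : Finset (ℕ × ℕ)} (hD : Low D) {c : ℕ × ℕ} (hc : c ∈ D) :
    c.1 < D.card ∧ c.2 < D.card := by
  constructor
  · have h : (range (c.1 + 1)).image (fun k => (k, 0)) ⊆ D := by
      intro d hd
      rw [mem_image] at hd
      obtain ⟨k, hk, rfl⟩ := hd
      rw [mem_range] at hk
      exact hD c hc _ (by simp only; omega) (by simp)
    have h2 := card_le_card h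
    rw [card_image_of_injective _ (fun a b h => (Prod.mk.inj h).1), card_range] at h2
    omega
  · have h : (range (c.2 + 1)).image (fun k => (0, k)) ⊆ D := by
      intro d hd
      rw [mem_image] at hd
      obtain ⟨k, hk, rfl⟩ := hd
      rw [mem_range] at hk
      exact hD c hc _ (by simp) (by simp only; omega)
    have h2 := card_le_card h
    rw [card_image_of_injective _ (fun a b h => (Prod.mk.inj h).2), card_range] at h2
    omega

lemma subset_rect {D : Finset (ℕ × ℕ)} (hD : Low D) {b a : ℕ} (hb : D.card ≤ b)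
    (ha : D.card ≤ a) : D ⊆ rect b a := by
  intro c hc
  have := lt_card hD hc
  rw [mem_rect]
  omega

open Classical in
/-- `1` if the shape is contained in the first row and `0` otherwise. -/
noncomputable def rowInd (D : Finset (ℕ × ℕ)) : ℚ := if ∀ c ∈ D, c.1 = 0 then 1 else 0

lemma rowInd_le (D : Finset (ℕ × ℕ)) : rowInd D ≤ 1 := by
  unfold rowInd
  split_ifs <;> norm_num

lemma cnt_row (N k : ℕ) (D : Finset (ℕ × ℕ)) (hD : Low D) (hcard : D.card + k = N) :
    cnt (ind (rect 1 N)) k D = rowInd D := by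
  classical
  induction k generalizing D with
  | zero =>
    show ind (rect 1 N) D = rowInd D
    unfold ind rowInd
    refine if_congr ?_ rfl rfl
    constructor
    · rintro rfl c hc
      rw [mem_rect] at hc
      omega
    · intro h
      refine eq_of_subset_of_card_le ?_ (by rw [card_rect]; omega)
      intro c hc
      rw [mem_rect]
      have h1 := lt_card hD hc
      have h2 := h c hc
      omega
  | succ k ih =>
    show ∑ c ∈ adds D, cnt _ k (insert c D) = rowInd D
    have h1 : ∀ c ∈ adds D, cnt (ind (rect 1 N)) k (insert c D) =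
        rowInd D * (if c.1 = 0 then 1 else 0) := by
      intro c hc
      have hc' := mem_adds.1 hc
      rw [ih _ (low_insert hD hc') (by rw [card_insert_of_notMem hc'.1]; omega)]
      unfold rowInd
      by_cases h : ∀ c ∈ D, c.1 = 0
      · by_cases h2 : c.1 = 0
        · rw [if_pos h, if_pos h2, if_pos]
          · norm_num
          · intro d hd
            rw [mem_insert] at hd
            rcases hd with rfl | hd
            · exact h2
            · exact h d hd
        · rw [if_neg h2, if_neg]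
          · norm_num
          · intro h3
            exact h2 (h3 c (mem_insert_self _ _))
      · rw [if_neg h, if_neg]
        · norm_num
        · intro h3
          exact h fun d hd => h3 d (mem_insert_of_mem hd)
    rw [sum_congr rfl h1, ← mul_sum]
    obtain ⟨L, hL⟩ := exists_row_zero D
    rw [sum_adds hD hL (fun c => if c.1 = 0 then 1 else 0)]
    simp

/-- The number of chains from `D` to rectangles of area `N`. -/
noncomputable def sR (D : Finset (ℕ × ℕ)) (N : ℕ) : ℚ :=
  ∑ x ∈ N.divisorsAntidiagonal, cnt (ind (rect x.1 x.2)) (N - D.card) D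

lemma sR_prime {D : Finset (ℕ × ℕ)} (hD : Low D) {p : ℕ} (hp : p.Prime) (h : D.card ≤ p) :
    sR D p = rowInd D + rowInd (tr D) := by
  unfold sR
  have e : p.divisorsAntidiagonal = {(1, p), (p, 1)} := by
    ext ⟨x, y⟩
    rw [Nat.mem_divisorsAntidiagonal, mem_insert, mem_singleton, Prod.mk.injEq, Prod.mk.injEq]
    simp only
    constructor
    · rintro ⟨h1, -⟩
      have h2 : x ∣ p := ⟨y, h1.symm⟩
      rcases (Nat.dvd_prime hp).1 h2 with rfl | rfl
      · left; omega
      · right
        refine ⟨rfl, ?_⟩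
        have := hp.pos
        exact Nat.eq_of_mul_eq_mul_left this (by rw [h1, mul_one])
    · rintro (⟨rfl, rfl⟩ | ⟨rfl, rfl⟩)
      · exact ⟨one_mul _, hp.ne_zero⟩
      · exact ⟨mul_one _, hp.ne_zero⟩
  have hne : ((1, p) : ℕ × ℕ) ≠ (p, 1) := by
    intro h
    have := (Prod.mk.inj h).1
    exact hp.one_lt.ne this
  rw [e, sum_pair hne]
  simp only
  rw [cnt_row p _ D hD (by omega), cnt_col, cnt_row p _ _ (low_tr hD) (by rw [card_tr]; omega)]

lemma sR_two {D : Finset (ℕ × ℕ)} (hD : Low D) {p q : ℕ} (hp : p.Prime) (hq : q.Prime)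
    (hpq : p ≠ q) (h : D.card ≤ p) :
    sR D (p * q) = rowInd D + rowInd (tr D) + (cnt (ind (rect p q)) (p * q - D.card) D +
      cnt (ind (rect q p)) (p * q - D.card) D) := by
  unfold sR
  have hp1 := hp.one_lt
  have hq1 := hq.one_lt
  have hple : p ≤ p * q := Nat.le_mul_of_pos_right p (by omega)
  have e : (p * q).divisorsAntidiagonal = {(1, p * q), (p * q, 1), (p, q), (q, p)} := by
    ext ⟨x, y⟩
    rw [Nat.mem_divisorsAntidiagonal]
    simp only [mem_insert, mem_singleton, Prod.mk.injEq]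
    constructor
    · rintro ⟨h1, -⟩
      by_cases hx : p ∣ x
      · obtain ⟨z, rfl⟩ := hx
        have h2 : z * y = q := by
          apply Nat.eq_of_mul_eq_mul_left hp.pos
          rw [← mul_assoc, h1]
        rcases (Nat.dvd_prime hq).1 ⟨y, h2.symm⟩ with rfl | rfl
        · right; right; left
          exact ⟨by ring, by omega⟩
        · right; left
          refine ⟨rfl, ?_⟩
          exact Nat.eq_of_mul_eq_mul_left hq.pos (by rw [h2, mul_one])
      · have hy : p ∣ y := by
          rcases hp.dvd_mul.1 (show p ∣ x * y from ⟨q, h1⟩) with h | h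
          · exact absurd h hx
          · exact h
        obtain ⟨z, rfl⟩ := hy
        have h2 : x * z = q := by
          apply Nat.eq_of_mul_eq_mul_left hp.pos
          rw [← h1]; ring
        rcases (Nat.dvd_prime hq).1 ⟨z, h2.symm⟩ with rfl | rfl
        · left
          refine ⟨rfl, ?_⟩
          rw [← h2]; ring
        · right; right; right
          refine ⟨rfl, ?_⟩
          have : z = 1 := Nat.eq_of_mul_eq_mul_left hq.pos (by rw [h2, mul_one])
          rw [this, mul_one]
    · have h0 : p * q ≠ 0 := Nat.mul_ne_zero hp.ne_zero hq.ne_zero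
      rintro (⟨rfl, rfl⟩ | ⟨rfl, rfl⟩ | ⟨rfl, rfl⟩ | ⟨rfl, rfl⟩)
      · exact ⟨one_mul _, h0⟩
      · exact ⟨mul_one _, h0⟩
      · exact ⟨rfl, h0⟩
      · exact ⟨mul_comm _ _, h0⟩
  have hpq1 : 1 < p * q := lt_of_lt_of_le hp1 hple
  have n1 : ((1, p * q) : ℕ × ℕ) ∉ ({(p * q, 1), (p, q), (q, p)} : Finset (ℕ × ℕ)) := by
    simp only [mem_insert, mem_singleton, Prod.mk.injEq, not_or]
    refine ⟨fun h => by omega, fun h => by omega, fun h => by omega⟩
  have n2 : ((p * q, 1) : ℕ × ℕ) ∉ ({(p, q), (q, p)} : Finset (ℕ × ℕ)) := by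
    simp only [mem_insert, mem_singleton, Prod.mk.injEq, not_or]
    refine ⟨fun h => by omega, fun h => by omega⟩
  have n3 : ((p, q) : ℕ × ℕ) ≠ (q, p) := fun h => hpq (Prod.mk.inj h).1
  rw [e, sum_insert n1, sum_insert n2, sum_pair n3]
  simp only
  rw [cnt_row (p * q) _ D hD (by omega), cnt_col,
    cnt_row (p * q) _ _ (low_tr hD) (by rw [card_tr]; omega)]
  ring

lemma cnt_ind_nat (R : Finset (ℕ × ℕ)) (k : ℕ) (D : Finset (ℕ × ℕ)) :
    ∃ m : ℕ, cnt (ind R) k D = m := by
  induction k generalizing D with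
  | zero =>
    show ∃ m : ℕ, ind R D = m
    unfold ind
    split_ifs
    · exact ⟨1, by simp⟩
    · exact ⟨0, by simp⟩
  | succ k ih =>
    choose f hf using ih
    refine ⟨∑ c ∈ adds D, f (insert c D), ?_⟩
    show ∑ c ∈ adds D, cnt _ k (insert c D) = _
    rw [Nat.cast_sum]
    exact sum_congr rfl fun c _ => hf _

lemma pr_pos {b a : ℕ} {D : Finset (ℕ × ℕ)} (h : D ⊆ rect b a) : 0 < pr a b D := by
  refine prod_pos fun c hc => ?_
  have hc := mem_rect.1 (h hc)
  unfold ct
  have h1 : (c.2 : ℚ) < a := by exact_mod_cast hc.2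
  have h2 : (c.1 : ℚ) < b := by exact_mod_cast hc.1
  have h3 : (0 : ℚ) ≤ c.1 := by positivity
  have h4 : (0 : ℚ) ≤ c.2 := by positivity
  refine mul_pos (by linarith) (by linarith)

lemma one_le_cnt {b a : ℕ} (hb : 0 < b) (ha : 0 < a) {k : ℕ} {D : Finset (ℕ × ℕ)}
    (hD : Low D) (hsub : D ⊆ rect b a) (hcard : D.card + k = b * a) :
    1 ≤ cnt (ind (rect b a)) k D := by
  have h1 := product_formula hb ha k D hD hsub hcard
  have h2 : 0 < cnt (ind (rect b a)) k D := by
    have h3 : 0 < cnt (ind (rect b a)) k D * KK b a := by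
      rw [h1]
      have := pr_pos hsub
      have := F_pos D hD
      positivity
    exact pos_of_mul_pos_left h3 (KK_pos b a).le
  obtain ⟨m, hm⟩ := cnt_ind_nat (rect b a) k D
  rw [hm] at h2 ⊢
  exact_mod_cast h2

end Pool.Agent.Work.MP_edc67c_co
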