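import Mathlib
import Pool.Agent.Work.MP_edc67c_co.Rects

/-!
The numbers of chains from a shape to rectangles determine the shape up to transposition.
-/

namespace Pool.Agent.Work.MP_edc67c_co

open Finset Polynomial

/-- Shapes with the same rectangular census have the same size. -/
lemma card_eq_aux {D E : Finset (ℕ × ℕ)} (hD : Low D) (hE : Low E)
    (h : ∀ k, sR D (D.card + k) = sR E (E.card + k)) : ¬ D.card < E.card := by
  intro hlt
  obtain ⟨t, ht⟩ : ∃ t, E.card = D.card + t := ⟨E.card - D.card, by omega⟩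
  have htpos : 0 < t := by omega
  obtain ⟨q, hqgt, hq⟩ := Nat.exists_infinite_primes (E.card + t + 2)
  have hq2 : 2 ≤ q := hq.two_le
  have hM : 0 < q ^ 3 := by positivity
  -- `-t` is a unit modulo `q ^ 3`
  have hcop : Nat.Coprime t (q ^ 3) := by
    apply Nat.Coprime.pow_right
    rw [Nat.coprime_comm]
    exact (Nat.Prime.coprime_iff_not_dvd hq).2 fun hd => by
      have := Nat.le_of_dvd htpos hd
      omega
  have hunit : IsUnit (-(t : ZMod (q ^ 3))) := by
    rw [IsUnit.neg_iff]
    exact (ZMod.isUnit_iff_coprime t (q ^ 3)).2 hcop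
  have : NeZero (q ^ 3) := ⟨hM.ne'⟩
  obtain ⟨p, hpgt, hp, hpmod⟩ :=
    Nat.forall_exists_prime_gt_and_eq_mod hunit (q ^ 3 * (E.card + 1))
  have hdvd : q ^ 3 ∣ p + t := by
    rw [← ZMod.natCast_eq_zero_iff]
    push_cast
    rw [hpmod]
    ring
  obtain ⟨s, hs⟩ := hdvd
  have hsgt : E.card + 1 < s := by
    by_contra hcon
    push Not at hcon
    have : q ^ 3 * s ≤ q ^ 3 * (E.card + 1) := Nat.mul_le_mul_left _ hcon
    omega
  have hle1 : E.card + 1 ≤ q ^ 3 * (E.card + 1) := Nat.le_mul_of_pos_left _ hM
  have hDp : D.card ≤ p := by omega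
  obtain ⟨k, hk⟩ : ∃ k, p = D.card + k := ⟨p - D.card, by omega⟩
  have h1 := h k
  rw [← hk, sR_prime hD hp hDp, show E.card + k = p + t by omega] at h1
  -- three rectangles
  have h2 : (3 : ℚ) ≤ sR E (p + t) := by
    unfold sR
    have hsub : ({(q, q ^ 2 * s), (q ^ 2, q * s), (q ^ 3, s)} : Finset (ℕ × ℕ)) ⊆
        (p + t).divisorsAntidiagonal := by
      intro x hx
      rw [Nat.mem_divisorsAntidiagonal]
      simp only [mem_insert, mem_singleton] at hx
      rcases hx with rfl | rfl | rfl
      · exact ⟨by rw [hs]; ring, by omega⟩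
      · exact ⟨by rw [hs]; ring, by omega⟩
      · exact ⟨by rw [hs], by omega⟩
    refine le_trans ?_ (sum_le_sum_of_subset_of_nonneg hsub fun x _ _ =>
      cnt_nonneg (fun F => by unfold ind; split_ifs <;> norm_num) _ _)
    have hq1 : q < q ^ 2 := by nlinarith
    have hq3 : q ^ 2 < q ^ 3 := by
      have : q ^ 3 = q ^ 2 * q := by ring
      nlinarith [Nat.pow_pos (n := 2) (show 0 < q by omega)]
    have n1 : ((q, q ^ 2 * s) : ℕ × ℕ) ∉ ({(q ^ 2, q * s), (q ^ 3, s)} : Finset (ℕ × ℕ)) := by
      simp only [mem_insert, mem_singleton, Prod.mk.injEq, not_or]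
      refine ⟨fun h => by omega, fun h => by omega⟩
    have n2 : ((q ^ 2, q * s) : ℕ × ℕ) ≠ (q ^ 3, s) := fun h => by
      have := (Prod.mk.inj h).1
      omega
    rw [sum_insert n1, sum_pair n2]
    simp only
    have hs1 : s ≤ q * s := Nat.le_mul_of_pos_left _ (by omega)
    have hs2 : s ≤ q ^ 2 * s := Nat.le_mul_of_pos_left _ (by positivity)
    have c1 := one_le_cnt (b := q) (a := q ^ 2 * s) (by omega) (by omega)
      (k := p + t - E.card) hE (subset_rect hE (by omega) (by omega)) (by
        have : q * (q ^ 2 * s) = p + t := by rw [hs]; ring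
        omega)
    have c2 := one_le_cnt (b := q ^ 2) (a := q * s) (by omega) (by omega)
      (k := p + t - E.card) hE (subset_rect hE (by omega) (by omega)) (by
        have : q ^ 2 * (q * s) = p + t := by rw [hs]; ring
        omega)
    have c3 := one_le_cnt (b := q ^ 3) (a := s) (by omega) (by omega)
      (k := p + t - E.card) hE (subset_rect hE (by omega) (by omega)) (by
        have : q ^ 3 * s = p + t := by rw [hs]
        omega)
    linarith
  have h3 := rowInd_le D
  have h4 := rowInd_le (tr D)
  linarith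

/-- The polynomial with the contents as roots. -/
noncomputable def PP (D : Finset (ℕ × ℕ)) : ℚ[X] := ∏ c ∈ D, (X - C (ct c))

lemma PP_monic (D : Finset (ℕ × ℕ)) : (PP D).Monic :=
  monic_prod_of_monic _ _ fun _ _ => monic_X_sub_C _

lemma PP_natDegree (D : Finset (ℕ × ℕ)) : (PP D).natDegree = D.card := by
  unfold PP
  rw [natDegree_prod_of_monic _ _ fun _ _ => monic_X_sub_C _]
  simp

lemma pr_eq (A B : ℚ) (D : Finset (ℕ × ℕ)) : pr A B D = (PP D).eval A * (PP (tr D)).eval B := by
  unfold pr PP tr
  rw [prod_image (fun a _ b _ h => Prod.swap_injective h), eval_prod, eval_prod, prod_mul_distrib]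
  congr 1
  · refine prod_congr rfl fun c _ => ?_
    simp
  · refine prod_congr rfl fun c _ => ?_
    rw [ct_swap]
    simp

/-- The algebraic lemma. -/
lemma poly_lemma {n : ℕ} {P P' Q Q' : ℚ[X]} (hP : P.Monic) (hP' : P'.Monic) (hQ : Q.Monic)
    (hQ' : Q'.Monic) (dP : P.natDegree = n) (dP' : P'.natDegree = n) (dQ : Q.natDegree = n)
    (dQ' : Q'.natDegree = n) {f g : ℚ} (hf : 0 < f) (S : Set ℚ) (hS : S.Infinite)
    (h : ∀ a ∈ S, ∀ b ∈ S, a ≠ b → f * (P.eval a * P'.eval b + P.eval b * P'.eval a) =
      g * (Q.eval a * Q'.eval b + Q.eval b * Q'.eval a)) : P = Q ∨ P = Q' := by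
  have lc : ∀ {R : ℚ[X]}, R.Monic → R.natDegree = n → R.coeff n = 1 := by
    intro R hR dR
    rw [← dR]
    exact hR
  have h1 : ∀ a ∈ S, C (f * P.eval a) * P' + C (f * P'.eval a) * P =
      C (g * Q.eval a) * Q' + C (g * Q'.eval a) * Q := by
    intro a ha
    refine Polynomial.eq_of_infinite_eval_eq _ _ ?_
    refine (hS.sdiff (Set.finite_singleton a)).mono ?_
    rintro b ⟨hb, hba⟩
    have := h a ha b hb (Ne.symm hba)
    show eval b _ = eval b _
    simp only [eval_add, eval_mul, eval_C]
    linarith
  have h2 : C f * (P + P') = C g * (Q + Q') := by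
    refine Polynomial.eq_of_infinite_eval_eq _ _ (hS.mono ?_)
    intro a ha
    have := congrArg (fun R : ℚ[X] => R.coeff n) (h1 a ha)
    simp only [coeff_add, coeff_C_mul] at this
    rw [lc hP dP, lc hP' dP', lc hQ dQ, lc hQ' dQ'] at this
    show eval a _ = eval a _
    simp only [eval_add, eval_mul, eval_C]
    linarith
  have hfg : f = g := by
    have := congrArg (fun R : ℚ[X] => R.coeff n) h2
    simp only [coeff_add, coeff_C_mul] at this
    rw [lc hP dP, lc hP' dP', lc hQ dQ, lc hQ' dQ'] at this
    linarith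
  subst hfg
  have h3 : C f * (P * P') = C f * (Q * Q') := by
    refine Polynomial.eq_of_infinite_eval_eq _ _ (hS.mono ?_)
    intro a ha
    have := congrArg (fun R : ℚ[X] => R.eval a) (h1 a ha)
    simp only [eval_add, eval_mul, eval_C] at this
    show eval a _ = eval a _
    simp only [eval_mul, eval_C]
    linarith
  have hC : (C f : ℚ[X]) ≠ 0 := C_ne_zero.2 hf.ne'
  have h4 := mul_left_cancel₀ hC h2
  have h5 := mul_left_cancel₀ hC h3
  have h6 : (P - Q) * (P - Q') = 0 := by
    have : (P - Q) * (P - Q') = P * P - P * (Q + Q') + Q * Q' := by ring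
    rw [this, ← h4, ← h5]
    ring
  rcases mul_eq_zero.1 h6 with h7 | h7
  · exact Or.inl (sub_eq_zero.1 h7)
  · exact Or.inr (sub_eq_zero.1 h7)

lemma ct_eq_iff (c d : ℕ × ℕ) : ct c = ct d ↔ c.2 + d.1 = d.2 + c.1 := by
  unfold ct
  constructor
  · intro h
    have : (c.2 : ℚ) + d.1 = d.2 + c.1 := by linarith
    exact_mod_cast this
  · intro h
    have : (c.2 : ℚ) + d.1 = d.2 + c.1 := by exact_mod_cast h
    linarith

/-- The contents determine the shape. -/
lemma subset_of_PP {D E : Finset (ℕ × ℕ)} (hD : Low D) (hE : Low E) (h : PP D = PP E) :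
    D ⊆ E := by
  classical
  have h1 : D.val.map ct = E.val.map ct := by
    have e : ∀ D : Finset (ℕ × ℕ), (PP D).roots = D.val.map ct := by
      intro D
      unfold PP
      have : ∏ c ∈ D, (X - C (ct c)) = ((D.val.map ct).map fun a => X - C a).prod := by
        rw [Multiset.map_map]; rfl
      rw [this, roots_multiset_prod_X_sub_C]
    rw [← e, ← e, h]
  have h2 : ∀ x : ℚ, (D.filter fun c => ct c = x).card = (E.filter fun c => ct c = x).card := by
    intro x
    have := congrArg (Multiset.count x) h1
    rw [Multiset.count_map, Multiset.count_map] at this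
    have e : ∀ D : Finset (ℕ × ℕ), (D.filter fun c => ct c = x).card =
        (Multiset.filter (fun c => x = ct c) D.val).card := by
      intro D
      rw [card_def, filter_val]
      congr 1
      exact Multiset.filter_congr fun c _ => eq_comm
    rw [e, e, this]
  intro x hx
  by_contra hxE
  set m := min x.1 x.2 with hm
  have h3 : (range (m + 1)).image (fun i => (x.1 - i, x.2 - i)) ⊆
      D.filter fun c => ct c = ct x := by
    intro c hc
    rw [mem_image] at hc
    obtain ⟨i, hi, rfl⟩ := hc
    rw [mem_range] at hi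
    rw [mem_filter]
    refine ⟨hD x hx _ (by simp) (by simp), ?_⟩
    rw [ct_eq_iff]
    simp only
    omega
  have h4 : (E.filter fun c => ct c = ct x) ⊆
      (range m).image (fun i => (x.1 - 1 - i, x.2 - 1 - i)) := by
    intro c hc
    rw [mem_filter, ct_eq_iff] at hc
    obtain ⟨hcE, hc⟩ := hc
    have h5 : c.1 < x.1 := by
      by_contra h6
      push Not at h6
      exact hxE (hE c hcE x h6 (by omega))
    rw [mem_image]
    refine ⟨x.1 - 1 - c.1, ?_, ?_⟩
    · rw [mem_range]; omega
    · apply Prod.ext
      · simp only; omega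
      · simp only; omega
  have h5 := card_le_card h3
  have h6 := card_le_card h4
  rw [card_image_of_injOn] at h5
  · have h7 := card_image_le (s := range m) (f := fun i => (x.1 - 1 - i, x.2 - 1 - i))
    rw [card_range] at h5 h7
    rw [h2] at h5
    omega
  · intro i hi j hj hij
    rw [coe_range, Set.mem_Iio] at hi hj
    have := (Prod.mk.inj hij).1
    omega

/-- The rectangular census determines the shape up to transposition. -/
theorem sR_determines {D E : Finset (ℕ × ℕ)} (hD : Low D) (hE : Low E)
    (h : ∀ k, sR D (D.card + k) = sR E (E.card + k)) : D = E ∨ D = tr E := by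
  classical
  have hcard : D.card = E.card := by
    have h1 := card_eq_aux hD hE h
    have h2 := card_eq_aux hE hD fun k => (h k).symm
    omega
  -- the sum of the row indicators
  have hrow : rowInd D + rowInd (tr D) = rowInd E + rowInd (tr E) := by
    obtain ⟨p, hpge, hp⟩ := Nat.exists_infinite_primes D.card
    have := h (p - D.card)
    rw [show D.card + (p - D.card) = p by omega, show E.card + (p - D.card) = p by omega,
      sR_prime hD hp hpge, sR_prime hE hp (by omega)] at this
    exact this
  -- the infinite set of primes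
  let S : Set ℚ := (fun n : ℕ => (n : ℚ)) '' {p : ℕ | p.Prime ∧ D.card ≤ p}
  have hS : S.Infinite := by
    apply Set.Infinite.image Nat.cast_injective.injOn
    rw [Set.infinite_iff_exists_gt]
    intro n
    obtain ⟨p, hp1, hp2⟩ := Nat.exists_infinite_primes (n + 1 + D.card)
    exact ⟨p, ⟨hp2, by omega⟩, by omega⟩
  have key : ∀ a ∈ S, ∀ b ∈ S, a ≠ b →
      F D * ((PP D).eval a * (PP (tr D)).eval b + (PP D).eval b * (PP (tr D)).eval a) =
      F E * ((PP E).eval a * (PP (tr E)).eval b + (PP E).eval b * (PP (tr E)).eval a) := by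
    rintro _ ⟨p, ⟨hp, hpD⟩, rfl⟩ _ ⟨q, ⟨hq, hqD⟩, rfl⟩ hne
    have hpq : p ≠ q := fun e => hne (by rw [e])
    have hle : D.card ≤ p * q := hpD.trans (Nat.le_mul_of_pos_right p hq.pos)
    have h1 := h (p * q - D.card)
    rw [show D.card + (p * q - D.card) = p * q by omega,
      show E.card + (p * q - D.card) = p * q by omega,
      sR_two hD hp hq hpq hpD, sR_two hE hp hq hpq (by omega), hrow, ← hcard] at h1
    have h2 := add_left_cancel h1
    have hf : ∀ G : Finset (ℕ × ℕ), Low G → G.card = D.card →
        (cnt (ind (rect p q)) (p * q - D.card) G + cnt (ind (rect q p)) (p * q - D.card) G) *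
          KK p q = ((p * q - D.card).factorial : ℚ) / (D.card.factorial : ℚ) *
          (F G * ((PP G).eval (p : ℚ) * (PP (tr G)).eval (q : ℚ) +
            (PP G).eval (q : ℚ) * (PP (tr G)).eval (p : ℚ))) := by
      intro G hG hGc
      rw [add_mul, product_formula hp.pos hq.pos _ G hG (subset_rect hG (by omega) (by omega))
        (by omega), KK_symm p q, product_formula hq.pos hp.pos _ G hG
        (subset_rect hG (by omega) (by omega)) (by rw [mul_comm q p]; omega), pr_eq, pr_eq, hGc]
      ring
    have h3 := hf D hD rfl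
    have h4 := hf E hE hcard.symm
    rw [h2, h4] at h3
    have h5 : ((p * q - D.card).factorial : ℚ) / (D.card.factorial : ℚ) ≠ 0 := by positivity
    exact (mul_left_cancel₀ h5 h3).symm
  have hpoly := poly_lemma (n := D.card) (PP_monic D) (PP_monic (tr D)) (PP_monic E)
    (PP_monic (tr E)) (PP_natDegree D) (by rw [PP_natDegree, card_tr])
    (by rw [PP_natDegree, hcard]) (by rw [PP_natDegree, card_tr, hcard]) (F_pos D hD) S hS key
  rcases hpoly with hp | hp
  · left
    exact Subset.antisymm (subset_of_PP hD hE hp) (subset_of_PP hE hD hp.symm)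
  · right
    exact Subset.antisymm (subset_of_PP hD (low_tr hE) hp) (subset_of_PP (low_tr hE) hD hp.symm)

end Pool.Agent.Work.MP_edc67c_co
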