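import Mathlib
import Pool.Agent.Work.MP_edc67c_co.Determine

/-!
Descendants in the tree of standard Young tableaux, children, and the census of the descendants
with exactly two children.
-/

namespace Pool.Agent.Work.MP_edc67c_co

open Finset

/-- `U` is a descendant of `T` at depth `k` below `T`. -/
def IsDesc (T U : Tab) (k : ℕ) : Prop := ∃ s : List (ℕ × ℕ), U.1 = s ++ T.1 ∧ s.length = k

/-- The number of children of `U`. -/
noncomputable def numChildren (U : Tab) : ℕ := {V : Tab | ∃ c, V.1 = c :: U.1}.ncard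

/-- The number of descendants of `T` at depth `k` which have exactly two children. -/
noncomputable def twoCensus (T : Tab) (k : ℕ) : ℕ :=
  {U : Tab | IsDesc T U k ∧ numChildren U = 2}.ncard

/-- The descendants at depth `k`, as a finite set of lists. -/
noncomputable def dsc : ℕ → List (ℕ × ℕ) → Finset (List (ℕ × ℕ))
  | 0, l => {l}
  | k + 1, l => (adds l.toFinset).biUnion fun c => dsc k (c :: l)

lemma mem_dsc {k : ℕ} {l u : List (ℕ × ℕ)} (hl : IsTableau l) :
    u ∈ dsc k l ↔ IsTableau u ∧ ∃ s, u = s ++ l ∧ s.length = k := by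
  induction k generalizing l with
  | zero =>
    show u ∈ ({l} : Finset (List (ℕ × ℕ))) ↔ _
    rw [mem_singleton]
    constructor
    · rintro rfl
      exact ⟨hl, [], rfl, rfl⟩
    · rintro ⟨-, s, hs, h0⟩
      rw [List.length_eq_zero_iff] at h0
      rw [hs, h0]
      rfl
  | succ k ih =>
    show u ∈ (adds l.toFinset).biUnion (fun c => dsc k (c :: l)) ↔ _
    rw [mem_biUnion]
    constructor
    · rintro ⟨c, hc, hu⟩
      have hcl : IsTableau (c :: l) := ⟨hl, (addable_iff l c).2 (mem_adds.1 hc)⟩
      obtain ⟨h1, s, h2, h3⟩ := (ih hcl).1 hu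
      refine ⟨h1, s ++ [c], ?_, ?_⟩
      · rw [h2]; simp
      · simp [h3]
    · rintro ⟨h1, s, h2, h3⟩
      have hs : s ≠ [] := by
        rintro rfl
        simp at h3
      have h4 := List.dropLast_append_getLast hs
      have h5 : u = s.dropLast ++ (s.getLast hs :: l) := by
        rw [h2]
        conv_lhs => rw [← h4]
        simp
      have h6 : IsTableau (s.getLast hs :: l) := by
        rw [h5] at h1
        exact h1.suffix
      refine ⟨s.getLast hs, ?_, ?_⟩
      · rw [mem_adds, ← addable_iff]
        exact h6.2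
      · rw [ih h6]
        exact ⟨h1, s.dropLast, h5, by rw [List.length_dropLast, h3]; rfl⟩

lemma sum_dsc (v : Finset (ℕ × ℕ) → ℚ) (k : ℕ) (l : List (ℕ × ℕ)) (hl : IsTableau l) :
    ∑ u ∈ dsc k l, v u.toFinset = cnt v k l.toFinset := by
  classical
  induction k generalizing l with
  | zero =>
    show ∑ u ∈ ({l} : Finset (List (ℕ × ℕ))), v u.toFinset = v l.toFinset
    rw [sum_singleton]
  | succ k ih =>
    show ∑ u ∈ (adds l.toFinset).biUnion (fun c => dsc k (c :: l)), v u.toFinset =
      ∑ c ∈ adds l.toFinset, cnt v k (insert c l.toFinset)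
    rw [sum_biUnion]
    · refine sum_congr rfl fun c hc => ?_
      have hcl : IsTableau (c :: l) := ⟨hl, (addable_iff l c).2 (mem_adds.1 hc)⟩
      rw [ih _ hcl, List.toFinset_cons]
    · intro c hc c' hc' hne
      have hcl : IsTableau (c :: l) := ⟨hl, (addable_iff l c).2 (mem_adds.1 hc)⟩
      have hcl' : IsTableau (c' :: l) := ⟨hl, (addable_iff l c').2 (mem_adds.1 hc')⟩
      show Disjoint (dsc k (c :: l)) (dsc k (c' :: l))
      rw [disjoint_left]
      intro u hu hu'
      obtain ⟨-, s, h1, h2⟩ := (mem_dsc hcl).1 hu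
      obtain ⟨-, s', h3, h4⟩ := (mem_dsc hcl').1 hu'
      rw [h1] at h3
      have := (List.append_inj h3 (by rw [h2, h4])).2
      exact hne (List.cons.inj this).1

lemma tab_inj : Function.Injective (fun W : Tab => W.1) := fun _ _ h => Subtype.ext h

lemma numChildren_eq (U : Tab) : numChildren U = (adds U.1.toFinset).card := by
  classical
  unfold numChildren
  rw [← Set.ncard_image_of_injective _ tab_inj]
  have : ((fun W : Tab => W.1) '' {V : Tab | ∃ c, V.1 = c :: U.1}) =
      (((adds U.1.toFinset).image fun c => c :: U.1 : Finset (List (ℕ × ℕ))) :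
        Set (List (ℕ × ℕ))) := by
    ext u
    rw [Set.mem_image, mem_coe, mem_image]
    constructor
    · rintro ⟨V, ⟨c, hc⟩, rfl⟩
      refine ⟨c, ?_, hc.symm⟩
      have h1 : IsTableau (c :: U.1) := hc ▸ V.2
      rw [mem_adds, ← addable_iff]
      exact h1.2
    · rintro ⟨c, hc, rfl⟩
      rw [mem_adds, ← addable_iff] at hc
      exact ⟨⟨c :: U.1, ⟨U.2, hc⟩⟩, ⟨c, rfl⟩, rfl⟩
  rw [this, Set.ncard_coe_finset, card_image_of_injective]
  intro a b h
  exact (List.cons.inj h).1

lemma adds_empty : adds ∅ = {(0, 0)} := by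
  ext ⟨a, b⟩
  rw [mem_adds, mem_singleton]
  unfold IsAdd
  simp

lemma adds_rect {b a : ℕ} (hb : 0 < b) (ha : 0 < a) : adds (rect b a) = {(0, a), (b, 0)} := by
  ext ⟨i, j⟩
  rw [mem_adds]
  unfold IsAdd
  simp only [mem_rect, mem_insert, mem_singleton, Prod.mk.injEq]
  omega

/-- The shapes with exactly two addable cells are the rectangles. -/
lemma card_adds_eq_two {D : Finset (ℕ × ℕ)} (hD : Low D) :
    (adds D).card = 2 ↔ ∃ b a, 0 < b ∧ 0 < a ∧ D = rect b a := by
  classical
  constructor
  · intro h
    have hne : D ≠ ∅ := by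
      rintro rfl
      rw [adds_empty, card_singleton] at h
      omega
    have h0 : 0 < row D 0 := by
      obtain ⟨⟨i, j⟩, hc⟩ := nonempty_iff_ne_empty.2 hne
      have := (mem_iff_row hD 0 0).1 (hD _ hc _ (by simp) (by simp))
      omega
    obtain ⟨L, hL⟩ := exists_row_zero D
    have hex : ∃ i, row D i = 0 := ⟨L, hL L le_rfl⟩
    set b := Nat.find hex with hb
    have hb0 : row D b = 0 := Nat.find_spec hex
    have hbmin : ∀ i < b, 0 < row D i := fun i hi => Nat.pos_of_ne_zero (Nat.find_min hex hi)
    have hbpos : 0 < b := by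
      by_contra hcon
      have : b = 0 := by omega
      rw [this] at hb0
      omega
    have m1 : (0, row D 0) ∈ adds D := by
      rw [mem_adds, isAdd_iff_row hD]
      exact ⟨rfl, Or.inl rfl⟩
    have m2 : (b, 0) ∈ adds D := by
      rw [mem_adds, isAdd_iff_row hD]
      refine ⟨hb0.symm, Or.inr ?_⟩
      have := hbmin (b - 1) (by omega)
      omega
    have hconst : ∀ i < b, row D i = row D 0 := by
      intro i
      induction i with
      | zero => intro _; rfl
      | succ i ih =>
        intro hi
        rw [← ih (by omega)]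
        by_contra hcon
        have hlt : row D (i + 1) < row D i :=
          lt_of_le_of_ne (row_anti hD (by omega)) hcon
        have m3 : (i + 1, row D (i + 1)) ∈ adds D := by
          rw [mem_adds, isAdd_iff_row hD]
          exact ⟨rfl, Or.inr (by simpa using hlt)⟩
        have hsub : ({(0, row D 0), (b, 0), (i + 1, row D (i + 1))} : Finset (ℕ × ℕ)) ⊆
            adds D := by
          intro c hc
          simp only [mem_insert, mem_singleton] at hc
          rcases hc with rfl | rfl | rfl
          · exact m1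
          · exact m2
          · exact m3
        have h3 := card_le_card hsub
        have n1 : ((0, row D 0) : ℕ × ℕ) ∉
            ({(b, 0), (i + 1, row D (i + 1))} : Finset (ℕ × ℕ)) := by
          simp only [mem_insert, mem_singleton, Prod.mk.injEq, not_or]
          refine ⟨fun h => by omega, fun h => by omega⟩
        have n2 : ((b, 0) : ℕ × ℕ) ≠ (i + 1, row D (i + 1)) := fun h => by
          have := (Prod.mk.inj h).1
          omega
        rw [card_insert_of_notMem n1, card_pair n2] at h3
        omega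
    refine ⟨b, row D 0, hbpos, h0, ?_⟩
    ext ⟨i, j⟩
    rw [mem_iff_row hD, mem_rect]
    simp only
    by_cases hi : i < b
    · rw [hconst i hi]
      exact ⟨fun h => ⟨hi, h⟩, fun h => h.2⟩
    · have h5 := row_anti hD (show b ≤ i by omega)
      constructor
      · intro h6; omega
      · intro h6; omega
  · rintro ⟨b, a, hb, ha, rfl⟩
    rw [adds_rect hb ha, card_pair]
    intro h
    have := (Prod.mk.inj h).1
    omega

lemma rect_inj {b a b' a' : ℕ} (hb : 0 < b) (ha : 0 < a) (hb' : 0 < b') (ha' : 0 < a')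
    (h : rect b a = rect b' a') : b = b' ∧ a = a' := by
  have h1 : ∀ c : ℕ × ℕ, (c.1 < b ∧ c.2 < a) ↔ (c.1 < b' ∧ c.2 < a') := fun c => by
    rw [← mem_rect, ← mem_rect, h]
  have h2 := h1 (b - 1, 0)
  have h3 := h1 (b' - 1, 0)
  have h4 := h1 (0, a - 1)
  have h5 := h1 (0, a' - 1)
  simp only at h2 h3 h4 h5
  omega

open Classical in
/-- The indicator of the rectangles. -/
noncomputable def isRect (E : Finset (ℕ × ℕ)) : ℚ :=
  if ∃ b a, 0 < b ∧ 0 < a ∧ E = rect b a then 1 else 0

lemma isRect_eq (E : Finset (ℕ × ℕ)) {N : ℕ} (h : E.card = N) :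
    isRect E = ∑ x ∈ N.divisorsAntidiagonal, ind (rect x.1 x.2) E := by
  classical
  unfold isRect
  split_ifs with hE
  · obtain ⟨b, a, hb, ha, rfl⟩ := hE
    rw [card_rect] at h
    rw [sum_eq_single (b, a)]
    · unfold ind
      rw [if_pos rfl]
    · rintro ⟨x, y⟩ hxy hne
      rw [Nat.mem_divisorsAntidiagonal] at hxy
      simp only at hxy
      unfold ind
      rw [if_neg]
      intro h1
      have hx : 0 < x := Nat.pos_of_ne_zero (by rintro rfl; simp at hxy; omega)
      have hy : 0 < y := Nat.pos_of_ne_zero (by rintro rfl; simp at hxy; omega)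
      have h2 := rect_inj hb ha hx hy h1
      exact hne (Prod.ext h2.1.symm h2.2.symm)
    · intro h1
      exfalso
      apply h1
      rw [Nat.mem_divisorsAntidiagonal]
      refine ⟨h, ?_⟩
      have := Nat.mul_pos hb ha
      omega
  · symm
    refine sum_eq_zero ?_
    rintro ⟨x, y⟩ hxy
    rw [Nat.mem_divisorsAntidiagonal] at hxy
    simp only at hxy
    unfold ind
    rw [if_neg]
    rintro rfl
    have hx : 0 < x := Nat.pos_of_ne_zero (by rintro rfl; simp at hxy; omega)
    have hy : 0 < y := Nat.pos_of_ne_zero (by rintro rfl; simp at hxy; omega)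
    exact hE ⟨x, y, hx, hy, rfl⟩

/-- The census of the descendants with two children counts chains to rectangles. -/
theorem twoCensus_eq (T : Tab) (k : ℕ) :
    (twoCensus T k : ℚ) = sR T.1.toFinset (T.1.toFinset.card + k) := by
  classical
  have h1 : (twoCensus T k : ℚ) = ∑ u ∈ dsc k T.1, isRect u.toFinset := by
    unfold twoCensus
    rw [← Set.ncard_image_of_injective _ tab_inj]
    have : ((fun W : Tab => W.1) '' {U : Tab | IsDesc T U k ∧ numChildren U = 2}) =
        (((dsc k T.1).filter fun u => ∃ b a, 0 < b ∧ 0 < a ∧ u.toFinset = rect b a :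
          Finset (List (ℕ × ℕ))) : Set (List (ℕ × ℕ))) := by
      ext u
      rw [Set.mem_image, mem_coe, mem_filter, mem_dsc T.2]
      constructor
      · rintro ⟨U, ⟨⟨s, h2, h3⟩, h4⟩, rfl⟩
        rw [numChildren_eq, card_adds_eq_two (isTableau_low U.2)] at h4
        exact ⟨⟨U.2, s, h2, h3⟩, h4⟩
      · rintro ⟨⟨h2, s, h3, h4⟩, h5⟩
        have h6 : ∀ U : Tab, U.1 = u → numChildren U = 2 := by
          intro U hU
          rw [numChildren_eq, card_adds_eq_two (isTableau_low U.2), hU]
          exact h5
        exact ⟨⟨u, h2⟩, ⟨⟨s, h3, h4⟩, h6 _ rfl⟩, rfl⟩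
    rw [this, Set.ncard_coe_finset, card_filter]
    push_cast
    rfl
  rw [h1, sum_dsc isRect k T.1 T.2]
  unfold sR
  rw [Nat.add_sub_cancel_left, ← cnt_sum]
  refine cnt_congr k _ (isTableau_low T.2) fun E _ _ hE => ?_
  exact isRect_eq E hE

lemma sR_tr (D : Finset (ℕ × ℕ)) (N : ℕ) : sR (tr D) N = sR D N := by
  unfold sR
  rw [card_tr]
  refine sum_bij' (fun x _ => x.swap) (fun x _ => x.swap) ?_ ?_ ?_ ?_ ?_
  · intro x hx
    rw [Nat.mem_divisorsAntidiagonal] at hx ⊢
    exact ⟨by rw [← hx.1]; exact mul_comm _ _, hx.2⟩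
  · intro x hx
    rw [Nat.mem_divisorsAntidiagonal] at hx ⊢
    exact ⟨by rw [← hx.1]; exact mul_comm _ _, hx.2⟩
  · intro x _; exact Prod.swap_swap x
  · intro x _; exact Prod.swap_swap x
  · intro x _
    rw [cnt_tr]
    congr 1
    funext E
    rw [ind_tr, tr_rect]
    rfl

/-- The census of the descendants with exactly two children determines the shape up to
transposition. -/
theorem twoCensus_iff (T U : Tab) : (∀ k, twoCensus T k = twoCensus U k) ↔
    (∀ c, c ∈ U.1 ↔ c ∈ T.1) ∨ (∀ c : ℕ × ℕ, c ∈ U.1 ↔ c.swap ∈ T.1) := by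
  constructor
  · intro h
    have h1 : ∀ k, sR U.1.toFinset (U.1.toFinset.card + k) =
        sR T.1.toFinset (T.1.toFinset.card + k) := by
      intro k
      rw [← twoCensus_eq, ← twoCensus_eq, h k]
    rcases sR_determines (isTableau_low U.2) (isTableau_low T.2) h1 with h2 | h2
    · left
      intro c
      rw [← List.mem_toFinset, ← List.mem_toFinset, h2]
    · right
      intro c
      rw [← List.mem_toFinset, ← List.mem_toFinset, h2, mem_tr]
  · rintro (h | h) k
    · have h1 : U.1.toFinset = T.1.toFinset := by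
        ext c
        rw [List.mem_toFinset, List.mem_toFinset, h]
      have := twoCensus_eq T k
      rw [← h1, ← twoCensus_eq] at this
      exact_mod_cast this
    · have h1 : U.1.toFinset = tr T.1.toFinset := by
        ext c
        rw [List.mem_toFinset, mem_tr, List.mem_toFinset, h]
      have := twoCensus_eq U k
      rw [h1, sR_tr, card_tr, ← twoCensus_eq] at this
      exact_mod_cast this.symm

end Pool.Agent.Work.MP_edc67c_co
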