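import Mathlib
import Pool.Agent.Work.MP_edc67c_co.Census

/-!
Automorphisms of the tree of standard Young tableaux and branch exchanges.
-/

namespace Pool.Agent.Work.MP_edc67c_co

/-- `ψ` is the branch exchange at `T` and its addable cell `c`, where the shape of `T` is
symmetric: `ψ` maps a descendant `T ∪ c ∪ S` of `T` to `T ∪ c' ∪ Sᵗ` and a descendant
`T ∪ c' ∪ S` to `T ∪ c ∪ Sᵗ`, where `c'` is the transpose of the cell `c`, and it fixes all other
tableaux. -/
def IsBranchExchange (T : Tab) (c : ℕ × ℕ) (ψ : tree ≃g tree) : Prop :=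
  SymmShape T.1 ∧ Addable T.1 c ∧
    (∀ (U : Tab) (s : List (ℕ × ℕ)), U.1 = s ++ c :: T.1 →
      (ψ U).1 = s.map Prod.swap ++ c.swap :: T.1) ∧
    (∀ (U : Tab) (s : List (ℕ × ℕ)), U.1 = s ++ c.swap :: T.1 →
      (ψ U).1 = s.map Prod.swap ++ c :: T.1) ∧
    ∀ U : Tab, (¬ ∃ s, U.1 = s ++ c :: T.1) → (¬ ∃ s, U.1 = s ++ c.swap :: T.1) → ψ U = U

/-- There is a branch exchange at every tableau of symmetric shape and every addable cell. -/
theorem exists_branchExchange (T : Tab) (hT : SymmShape T.1) (c : ℕ × ℕ) (hc : Addable T.1 c) :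
    ∃ ψ : tree ≃g tree, IsBranchExchange T c ψ := by
  classical
  let P : List (ℕ × ℕ) → Prop := fun s => s.getLast? = some c ∨ s.getLast? = some c.swap
  have hP : ∀ s, P (s.map Prod.swap) ↔ P s := by
    intro s
    show (s.map Prod.swap).getLast? = some c ∨ (s.map Prod.swap).getLast? = some c.swap ↔
      s.getLast? = some c ∨ s.getLast? = some c.swap
    rw [List.getLast?_map]
    rcases s.getLast? with _ | ⟨a, b⟩
    · simp
    · obtain ⟨x, y⟩ := c
      simp only [Option.map_some, Option.some.injEq, Prod.swap_prod_mk, Prod.mk.injEq]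
      omega
  have hP' : ∀ c s, s ≠ [] → (P (c :: s) ↔ P s) := by
    intro d s hs
    show (d :: s).getLast? = some c ∨ (d :: s).getLast? = some c.swap ↔ _
    rw [List.getLast?_cons_of_ne_nil hs]
  have hPc : ∀ s, P (s ++ [c]) := fun s => Or.inl (by simp)
  have hPc' : ∀ s, P (s ++ [c.swap]) := fun s => Or.inr (by simp)
  refine ⟨condAut T hT P hP hP', hT, hc, ?_, ?_, ?_⟩
  · intro U s hU
    show condFlip T.1 P U.1 = _
    unfold condFlip
    have e : U.1 = (s ++ [c]) ++ T.1 := by rw [hU]; simp
    rw [if_pos ⟨s ++ [c], hPc s, e⟩, e, flipAbove_append]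
    simp
  · intro U s hU
    show condFlip T.1 P U.1 = _
    unfold condFlip
    have e : U.1 = (s ++ [c.swap]) ++ T.1 := by rw [hU]; simp
    rw [if_pos ⟨s ++ [c.swap], hPc' s, e⟩, e, flipAbove_append]
    simp
  · intro U h1 h2
    apply Subtype.ext
    show condFlip T.1 P U.1 = _
    unfold condFlip
    rw [if_neg]
    rintro ⟨s, hs, hs'⟩
    have hne : s ≠ [] := by
      rintro rfl
      rcases hs with hs | hs <;> simp at hs
    have h4 := List.dropLast_append_getLast hne
    rcases hs with hs | hs
    · rw [List.getLast?_eq_some_getLast hne, Option.some.injEq] at hs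
      apply h1
      refine ⟨s.dropLast, ?_⟩
      rw [hs', ← hs]
      conv_lhs => rw [← h4]
      simp
    · rw [List.getLast?_eq_some_getLast hne, Option.some.injEq] at hs
      apply h2
      refine ⟨s.dropLast, ?_⟩
      rw [hs', ← hs]
      conv_lhs => rw [← h4]
      simp

/-- The empty tableau. -/
def root : Tab := ⟨[], trivial⟩

lemma eq_root {T : Tab} (h : T.1.length = 0) : T = root :=
  Subtype.ext (List.eq_nil_of_length_eq_zero h)

lemma exists_child (T : Tab) : ∃ V : Tab, ∃ c, V.1 = c :: T.1 := by
  have h : (0, row T.1.toFinset 0) ∈ adds T.1.toFinset := by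
    rw [mem_adds, isAdd_iff_row (isTableau_low T.2)]
    exact ⟨rfl, Or.inl rfl⟩
  rw [mem_adds, ← addable_iff] at h
  exact ⟨⟨_ :: T.1, ⟨T.2, h⟩⟩, _, rfl⟩

lemma exists_parent {T : Tab} {n : ℕ} (h : T.1.length = n + 1) :
    ∃ V : Tab, ∃ c, T.1 = c :: V.1 ∧ V.1.length = n := by
  obtain ⟨l, hl⟩ := T
  rcases l with _ | ⟨c, l⟩
  · simp at h
  · exact ⟨⟨l, hl.1⟩, c, rfl, by simpa using h⟩

lemma root_neighbour {V V' : Tab} (h : tree.Adj root V) (h' : tree.Adj root V') : V = V' := by
  have key : ∀ V : Tab, tree.Adj root V → V.1 = [(0, 0)] := by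
    rintro V (⟨c, hc⟩ | ⟨c, hc⟩)
    · exact absurd hc (by simp [root])
    · have h1 : IsTableau (c :: root.1) := hc ▸ V.2
      obtain ⟨-, -, h2, h3⟩ := h1
      have h4 : c = (0, 0) := by
        simp only [root, List.not_mem_nil, or_false] at h2 h3
        exact Prod.ext h2 h3
      rw [hc, h4]
      rfl
  exact Subtype.ext ((key V h).trans (key V' h').symm)

lemma map_root (φ : tree ≃g tree) : φ root = root := by
  by_contra hcon
  have h0 : (φ root).1.length ≠ 0 := fun h => hcon (eq_root h)
  obtain ⟨n, hn⟩ : ∃ n, (φ root).1.length = n + 1 := ⟨(φ root).1.length - 1, by omega⟩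
  obtain ⟨V, c, hV, hVn⟩ := exists_parent hn
  obtain ⟨W, d, hW⟩ := exists_child (φ root)
  have h1 : tree.Adj (φ root) V := Or.inl ⟨c, hV⟩
  have h2 : tree.Adj (φ root) W := Or.inr ⟨d, hW⟩
  have h3 : tree.Adj root (φ.symm V) := by
    rw [← φ.map_rel_iff']
    show tree.Adj (φ root) (φ (φ.symm V))
    rwa [φ.apply_symm_apply]
  have h4 : tree.Adj root (φ.symm W) := by
    rw [← φ.map_rel_iff']
    show tree.Adj (φ root) (φ (φ.symm W))
    rwa [φ.apply_symm_apply]
  have h5 := φ.symm.injective (root_neighbour h3 h4)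
  have h6 : V.1.length = W.1.length := by rw [h5]
  rw [hW, List.length_cons, hn] at h6
  omega

lemma map_level (φ : tree ≃g tree) (n : ℕ) : ∀ T : Tab, T.1.length = n →
    (φ T).1.length = n ∧ ∀ (V : Tab) (c : ℕ × ℕ), T.1 = c :: V.1 →
      ∃ d, (φ T).1 = d :: (φ V).1 := by
  induction n using Nat.strong_induction_on with
  | _ n ih =>
    intro T hT
    rcases n with _ | n
    · rw [eq_root hT, map_root]
      refine ⟨rfl, ?_⟩
      intro V c h
      exact absurd h (by simp [root])
    · obtain ⟨V, c, hV, hVn⟩ := exists_parent hT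
      have hadj : tree.Adj (φ T) (φ V) := φ.map_rel_iff'.2 (Or.inl ⟨c, hV⟩)
      have key : ∃ d, (φ T).1 = d :: (φ V).1 := by
        rcases hadj with h | ⟨d, hd⟩
        · exact h
        · exfalso
          have h1 := (ih n (by omega) V hVn).1
          rw [hd, List.length_cons] at h1
          obtain ⟨m, rfl⟩ : ∃ m, n = m + 1 := ⟨n - 1, by omega⟩
          obtain ⟨W, e, hW, hWm⟩ := exists_parent hVn
          obtain ⟨d', hd'⟩ := (ih (m + 1) (by omega) V hVn).2 W e hW
          rw [hd] at hd'
          have h2 : φ T = φ W := Subtype.ext (List.cons.inj hd').2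
          have h3 := φ.injective h2
          rw [h3] at hT
          omega
      obtain ⟨d, hd⟩ := key
      refine ⟨by rw [hd, List.length_cons, (ih n (by omega) V hVn).1], ?_⟩
      intro V' c' h
      have : V' = V := by
        apply Subtype.ext
        rw [hV] at h
        exact (List.cons.inj h).2.symm
      rw [this]
      exact ⟨d, hd⟩

lemma map_child (φ : tree ≃g tree) {T V : Tab} (h : ∃ c, V.1 = c :: T.1) :
    ∃ d, (φ V).1 = d :: (φ T).1 := by
  obtain ⟨c, hc⟩ := h
  exact (map_level φ _ V rfl).2 T c hc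

lemma map_child_iff (φ : tree ≃g tree) {T V : Tab} :
    (∃ d, (φ V).1 = d :: (φ T).1) ↔ ∃ c, V.1 = c :: T.1 := by
  refine ⟨fun h => ?_, map_child φ⟩
  have := map_child φ.symm h
  rwa [φ.symm_apply_apply, φ.symm_apply_apply] at this

lemma map_desc (φ : tree ≃g tree) {T : Tab} {k : ℕ} : ∀ U : Tab, IsDesc T U k →
    IsDesc (φ T) (φ U) k := by
  induction k with
  | zero =>
    rintro U ⟨s, hs, h0⟩
    have : U = T := by
      apply Subtype.ext
      rw [hs, List.eq_nil_of_length_eq_zero h0]
      rfl
    rw [this]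
    exact ⟨[], rfl, rfl⟩
  | succ k ih =>
    rintro U ⟨s, hs, hk⟩
    rcases s with _ | ⟨c, s⟩
    · simp at hk
    · have hU : IsTableau (c :: (s ++ T.1)) := by
        have := U.2
        rw [hs] at this
        exact this
      obtain ⟨s', h1, h2⟩ := ih ⟨s ++ T.1, hU.1⟩ ⟨s, rfl, by simpa using hk⟩
      obtain ⟨d, hd⟩ := map_child φ (T := ⟨s ++ T.1, hU.1⟩) (V := U) ⟨c, hs⟩
      exact ⟨d :: s', by rw [hd, h1]; rfl, by simp [h2]⟩

lemma map_desc_iff (φ : tree ≃g tree) {T U : Tab} {k : ℕ} :
    IsDesc (φ T) (φ U) k ↔ IsDesc T U k := by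
  refine ⟨fun h => ?_, map_desc φ U⟩
  have := map_desc φ.symm _ h
  rwa [φ.symm_apply_apply, φ.symm_apply_apply] at this

lemma numChildren_map (φ : tree ≃g tree) (U : Tab) : numChildren (φ U) = numChildren U := by
  unfold numChildren
  have : {V : Tab | ∃ c, V.1 = c :: (φ U).1} = φ '' {V : Tab | ∃ c, V.1 = c :: U.1} := by
    ext V
    rw [Set.mem_image]
    constructor
    · intro h
      refine ⟨φ.symm V, ?_, φ.apply_symm_apply V⟩
      show ∃ c, (φ.symm V).1 = c :: U.1
      rw [← map_child_iff φ, φ.apply_symm_apply]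
      exact h
    · rintro ⟨W, hW, rfl⟩
      exact map_child φ hW
  rw [this, Set.ncard_image_of_injective _ φ.injective]

lemma twoCensus_map (φ : tree ≃g tree) (T : Tab) (k : ℕ) :
    twoCensus (φ T) k = twoCensus T k := by
  unfold twoCensus
  have : {U : Tab | IsDesc (φ T) U k ∧ numChildren U = 2} =
      φ '' {U : Tab | IsDesc T U k ∧ numChildren U = 2} := by
    ext V
    rw [Set.mem_image]
    constructor
    · rintro ⟨h1, h2⟩
      refine ⟨φ.symm V, ⟨?_, ?_⟩, φ.apply_symm_apply V⟩
      · rw [← map_desc_iff φ, φ.apply_symm_apply]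
        exact h1
      · rw [← numChildren_map φ, φ.apply_symm_apply]
        exact h2
    · rintro ⟨W, ⟨h1, h2⟩, rfl⟩
      exact ⟨map_desc φ W h1, by rw [numChildren_map]; exact h2⟩
  rw [this, Set.ncard_image_of_injective _ φ.injective]

/-- Automorphisms preserve the shape up to transposition. -/
theorem shape_map (φ : tree ≃g tree) (T : Tab) :
    (∀ c, c ∈ (φ T).1 ↔ c ∈ T.1) ∨ (∀ c : ℕ × ℕ, c ∈ (φ T).1 ↔ c.swap ∈ T.1) :=
  (twoCensus_iff T (φ T)).1 fun k => (twoCensus_map φ T k).symm

lemma finite_level (n : ℕ) : {U : Tab | U.1.length = n}.Finite := by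
  apply Set.Finite.of_finite_image (f := fun W : Tab => W.1) _ tab_inj.injOn
  refine (dsc n []).finite_toSet.subset ?_
  rintro _ ⟨U, hU, rfl⟩
  rw [Finset.mem_coe, mem_dsc (l := []) trivial]
  exact ⟨U.2, U.1, by simp, hU⟩

/-- The group generated by the branch exchanges. -/
def BX : Subgroup (tree ≃g tree) :=
  Subgroup.closure {ψ | ∃ (T : Tab) (c : ℕ × ℕ), IsBranchExchange T c ψ}

lemma step_aux {N : ℕ} (χ : tree ≃g tree) (hχ : ∀ U : Tab, U.1.length ≤ N → χ U = U)
    (L : Finset Tab) (hL : ∀ U ∈ L, U.1.length = N + 1) :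
    ∃ ρ ∈ BX, ∀ U : Tab, (U.1.length ≤ N ∨ U ∈ L) → χ U = ρ U := by
  classical
  induction L using Finset.induction_on with
  | empty =>
    refine ⟨1, BX.one_mem, ?_⟩
    rintro U (h | h)
    · rw [hχ U h]; rfl
    · exact absurd h (Finset.notMem_empty _)
  | @insert W L hWL ih =>
    obtain ⟨ρ, hρ, h1⟩ := ih fun U hU => hL U (Finset.mem_insert_of_mem hU)
    have hWlen := hL W (Finset.mem_insert_self _ _)
    obtain ⟨T, c, hW, hTlen⟩ := exists_parent hWlen
    -- the corrected automorphism
    set χ' : tree ≃g tree := ρ⁻¹ * χ with hχ'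
    have e1 : ∀ U, χ U = ρ (χ' U) := by
      intro U
      rw [hχ']
      show χ U = ρ (ρ.symm (χ U))
      rw [ρ.apply_symm_apply]
    have fix : ∀ U : Tab, (U.1.length ≤ N ∨ U ∈ L) → χ' U = U := by
      intro U hU
      have := h1 U hU
      rw [e1] at this
      exact ρ.injective this
    have hT := fix T (Or.inl hTlen.le)
    obtain ⟨d, hd⟩ := map_child χ' (T := T) (V := W) ⟨c, hW⟩
    rw [hT] at hd
    by_cases hdc : d = c
    · refine ⟨ρ, hρ, ?_⟩
      rintro U (hU | hU)
      · exact h1 U (Or.inl hU)
      · rcases Finset.mem_insert.1 hU with rfl | hU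
        · rw [e1]
          congr 1
          apply Subtype.ext
          rw [hd, hW, hdc]
        · exact h1 U (Or.inr hU)
    · have hcT : Addable T.1 c := by
        have := W.2
        rw [hW] at this
        exact this.2
      have hdT : Addable T.1 d := by
        have := (χ' W).2
        rw [hd] at this
        exact this.2
      have hshape := shape_map χ' W
      rw [hd, hW] at hshape
      have hconj : ∀ x : ℕ × ℕ, x ∈ d :: T.1 ↔ x.swap ∈ c :: T.1 := by
        rcases hshape with h | h
        · exfalso
          have := (h d).1 List.mem_cons_self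
          rcases List.mem_cons.1 this with h2 | h2
          · exact hdc h2
          · exact hdT.1 h2
        · exact h
      have hdswap : d = c.swap := by
        by_contra hne
        have h2 : d.swap ∈ T.1 := by
          have := (hconj d).1 List.mem_cons_self
          rcases List.mem_cons.1 this with h3 | h3
          · exfalso
            apply hne
            rw [← h3, Prod.swap_swap]
          · exact h3
        have h3 := (hconj d.swap).1 (List.mem_cons_of_mem _ h2)
        rw [Prod.swap_swap] at h3
        rcases List.mem_cons.1 h3 with h4 | h4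
        · exact hdc h4
        · exact hdT.1 h4
      have hsymm : SymmShape T.1 := by
        have half : ∀ x : ℕ × ℕ, x ∈ T.1 → x.swap ∈ T.1 := by
          intro x hx
          have := (hconj x).1 (List.mem_cons_of_mem _ hx)
          rcases List.mem_cons.1 this with h2 | h2
          · exfalso
            apply hdT.1
            rw [hdswap, ← h2, Prod.swap_swap]
            exact hx
          · exact h2
        intro x
        refine ⟨half x, fun h => ?_⟩
        have := half _ h
        rwa [Prod.swap_swap] at this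
      obtain ⟨σ, hσ⟩ := exists_branchExchange T hsymm c hcT
      have hσ' := hσ
      obtain ⟨-, -, s1, s2, s3⟩ := hσ'
      refine ⟨ρ * σ, BX.mul_mem hρ (Subgroup.subset_closure ⟨T, c, hσ⟩), ?_⟩
      have key : ∀ U : Tab, (U.1.length ≤ N ∨ U ∈ insert W L) → χ' U = σ U := by
        intro U hU
        have fixed : (U.1.length ≤ N ∨ U ∈ L) → χ' U = σ U := by
          intro hU'
          rw [fix U hU']
          have hlen : U.1.length ≤ N + 1 := by
            rcases hU' with h | h
            · omega
            · exact (hL U (Finset.mem_insert_of_mem h)).le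
          symm
          apply s3
          · rintro ⟨s, hs⟩
            have h5 := congrArg List.length hs
            rw [List.length_append, List.length_cons, hTlen] at h5
            have h6 : s = [] := List.eq_nil_of_length_eq_zero (by omega)
            have h7 : U = W := Subtype.ext (by rw [hs, h6, hW]; rfl)
            have h8 := fix U hU'
            rw [h7] at h8
            rw [h8, hW] at hd
            exact hdc (List.cons.inj hd).1.symm
          · rintro ⟨s, hs⟩
            have h5 := congrArg List.length hs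
            rw [List.length_append, List.length_cons, hTlen] at h5
            have h6 : s = [] := List.eq_nil_of_length_eq_zero (by omega)
            have h7 : U = χ' W := Subtype.ext (by rw [hs, h6, hd, hdswap]; rfl)
            have h8 := fix U hU'
            have h9 : U = W := χ'.injective (by rw [h8, ← h7])
            rw [← h7, h9, hW] at hd
            exact hdc (List.cons.inj hd).1.symm
        rcases hU with hU | hU
        · exact fixed (Or.inl hU)
        · rcases Finset.mem_insert.1 hU with rfl | hU
          · apply Subtype.ext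
            rw [hd, s1 U [] (by rw [hW]; rfl), hdswap]
            rfl
          · exact fixed (Or.inr hU)
      intro U hU
      rw [e1, key U hU]
      rfl

/-- Every automorphism agrees up to any size with a finite composition of branch exchanges. -/
theorem exists_BX (φ : tree ≃g tree) (N : ℕ) :
    ∃ ψ ∈ BX, ∀ U : Tab, U.1.length ≤ N → φ U = ψ U := by
  induction N with
  | zero =>
    refine ⟨1, BX.one_mem, ?_⟩
    intro U hU
    rw [eq_root (by omega : U.1.length = 0), map_root]
    rfl
  | succ N ih =>
    obtain ⟨ψ, hψ, h1⟩ := ih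
    set χ : tree ≃g tree := ψ⁻¹ * φ with hχ
    have e1 : ∀ U, φ U = ψ (χ U) := by
      intro U
      rw [hχ]
      show φ U = ψ (ψ.symm (φ U))
      rw [ψ.apply_symm_apply]
    have fix : ∀ U : Tab, U.1.length ≤ N → χ U = U := by
      intro U hU
      have := h1 U hU
      rw [e1] at this
      exact ψ.injective this
    obtain ⟨ρ, hρ, h2⟩ := step_aux χ fix (finite_level (N + 1)).toFinset (by
      intro U hU
      rw [Set.Finite.mem_toFinset] at hU
      exact hU)
    refine ⟨ψ * ρ, BX.mul_mem hψ hρ, ?_⟩
    intro U hU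
    rw [e1, h2 U]
    · rfl
    · rcases Nat.lt_or_ge N U.1.length with h | h
      · right
        rw [Set.Finite.mem_toFinset]
        show U.1.length = N + 1
        omega
      · exact Or.inl h

end Pool.Agent.Work.MP_edc67c_co
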